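import Pool.Agent.Helper23.SH.St
import Pool.Agent.Helper80.PI2.M_IA

/-!
Module TF of project SH (MP_b2fa09_gt): transformation under reparametrisation.
-/

set_option autoImplicit false

namespace Helper23.SH

open Helper35.PI Helper35.PI2
open scoped ContDiff Manifold Topology ENNReal BigOperators Matrix Kronecker
open MeasureTheory Set Filter

section lin

variable {κ V W U : Type} [Fintype κ] [AddCommGroup V] [Module ℝ V] [AddCommGroup W] [Module ℝ W]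
  [AddCommGroup U] [Module ℝ U]

theorem exp_TF (β : V →ₗ[ℝ] W →ₗ[ℝ] U) (K : Matrix κ κ ℝ) (a' a : κ → V) (b' b : κ → W)
    (ha : ∀ p, a' p = ∑ r, K p r • a r) (hb : ∀ q, b' q = ∑ s, K q s • b s) (p q : κ) :
    β (a' p) (b' q) = ∑ r, ∑ s, (K p r * K q s) • β (a r) (b s) := by
  rw [ha, hb, map_sum]
  have h1 : ∀ s, β (∑ r, K p r • a r) (K q s • b s) = ∑ r, (K p r * K q s) • β (a r) (b s) := by
    intro s
    rw [map_sum, LinearMap.sum_apply]
    refine Finset.sum_congr rfl fun r _ => ?_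
    rw [map_smul, map_smul, LinearMap.smul_apply, smul_smul, mul_comm]
  simp_rw [h1]
  exact Finset.sum_comm

theorem bil_TF (β : V →ₗ[ℝ] W →ₗ[ℝ] U) (B' B K : Matrix κ κ ℝ) (hB : K.transpose * B' * K = B)
    (a' a : κ → V) (b' b : κ → W)
    (ha : ∀ p, a' p = ∑ r, K p r • a r) (hb : ∀ q, b' q = ∑ s, K q s • b s) :
    ∑ p, ∑ q, B' p q • β (a' p) (b' q) = ∑ r, ∑ s, B r s • β (a r) (b s) := by
  simp_rw [exp_TF β K a' a b' b ha hb]
  rw [Helper67.PI.contr B' K (fun r s => β (a r) (b s)), hB]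

end lin

theorem kron_TF {κ : Type} [Fintype κ] (A' A K : Matrix κ κ ℝ)
    (h : K.transpose * A' * K = A) :
    (K ⊗ₖ K).transpose * (A' ⊗ₖ A') * (K ⊗ₖ K) = A ⊗ₖ A := by
  rw [← Matrix.kroneckerMap_transpose, ← Matrix.mul_kronecker_mul, ← Matrix.mul_kronecker_mul, h]

theorem rev3_TF {ι : Type} [Fintype ι] (H : ι → ι → ι → ℝ) :
    ∑ c, ∑ b, ∑ a, H a b c = ∑ a, ∑ b, ∑ c, H a b c := by
  calc ∑ c, ∑ b, ∑ a, H a b c = ∑ c, ∑ a, ∑ b, H a b c := by
        refine Finset.sum_congr rfl fun c _ => ?_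
        exact Finset.sum_comm
    _ = ∑ a, ∑ c, ∑ b, H a b c := Finset.sum_comm
    _ = ∑ a, ∑ b, ∑ c, H a b c := by
        refine Finset.sum_congr rfl fun c _ => ?_
        exact Finset.sum_comm

theorem rev4_TF {ι : Type} [Fintype ι] (H : ι → ι → ι → ι → ℝ) :
    ∑ d, ∑ c, ∑ b, ∑ a, H a b c d = ∑ a, ∑ b, ∑ c, ∑ d, H a b c d := by
  calc ∑ d, ∑ c, ∑ b, ∑ a, H a b c d = ∑ d, ∑ a, ∑ b, ∑ c, H a b c d := by
        refine Finset.sum_congr rfl fun d _ => ?_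
        exact rev3_TF (fun a b c => H a b c d)
    _ = ∑ a, ∑ d, ∑ b, ∑ c, H a b c d := Finset.sum_comm
    _ = ∑ a, ∑ b, ∑ c, ∑ d, H a b c d := by
        refine Finset.sum_congr rfl fun a _ => ?_
        calc ∑ d, ∑ b, ∑ c, H a b c d = ∑ b, ∑ d, ∑ c, H a b c d := Finset.sum_comm
          _ = _ := by
            refine Finset.sum_congr rfl fun b _ => ?_
            exact Finset.sum_comm

variable {n N : ℕ}

/-- the inner product as a bilinear map -/
noncomputable def inn_TF (N : ℕ) : EE N →ₗ[ℝ] EE N →ₗ[ℝ] ℝ := innerₗ (EE N)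

theorem inn_TF_apply (v w : EE N) : inn_TF N v w = inner ℝ v w := rfl

/-- the product as a bilinear map -/
noncomputable def mul_TF : ℝ →ₗ[ℝ] ℝ →ₗ[ℝ] ℝ := LinearMap.mul ℝ ℝ

theorem mul_TF_apply (v w : ℝ) : mul_TF v w = v * w := rfl

/-- scalar multiplication as a bilinear map -/
noncomputable def sm_TF (N : ℕ) : ℝ →ₗ[ℝ] EE N →ₗ[ℝ] EE N := LinearMap.lsmul ℝ (EE N)

theorem sm_TF_apply (v : ℝ) (w : EE N) : sm_TF N v w = v • w := rfl

theorem rl_TF (f : EE n → EE N) (x : EE n) :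
    rl f x = ∑ p : Fin n × Fin n, ∑ q : Fin n × Fin n,
      ((gram f x)⁻¹ ⊗ₖ (gram f x)⁻¹) p q • inn_TF N (bl f x p.1 p.2) (bl f x q.1 q.2) := by
  simp only [Fintype.sum_prod_type]
  unfold rl u2 u1 sl
  refine Finset.sum_congr rfl fun i _ => Finset.sum_congr rfl fun j _ => ?_
  simp_rw [Finset.mul_sum]
  rw [Finset.sum_comm]
  refine Finset.sum_congr rfl fun a _ => Finset.sum_congr rfl fun b _ => ?_
  rw [Matrix.kroneckerMap_apply, inn_TF_apply, smul_eq_mul, real_inner_comm]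
  ring

theorem nl_TF (f : EE n → EE N) (x : EE n) :
    nl f x = ∑ p : (Fin n × Fin n) × (Fin n × Fin n), ∑ q : (Fin n × Fin n) × (Fin n × Fin n),
      (((gram f x)⁻¹ ⊗ₖ (gram f x)⁻¹) ⊗ₖ ((gram f x)⁻¹ ⊗ₖ (gram f x)⁻¹)) p q •
        mul_TF (sl f x p.1.1 p.1.2 p.2.1 p.2.2) (sl f x q.1.1 q.1.2 q.2.1 q.2.2) := by
  simp only [Fintype.sum_prod_type]
  unfold nl u4 u3 u2 u1
  refine Finset.sum_congr rfl fun i _ => Finset.sum_congr rfl fun j _ =>
    Finset.sum_congr rfl fun k _ => Finset.sum_congr rfl fun l _ => ?_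
  simp_rw [Finset.mul_sum]
  rw [rev4_TF (fun a b c d => sl f x i j k l * ((gram f x)⁻¹ l d * ((gram f x)⁻¹ k c *
    ((gram f x)⁻¹ j b * ((gram f x)⁻¹ i a * sl f x a b c d)))))]
  refine Finset.sum_congr rfl fun a _ => Finset.sum_congr rfl fun b _ =>
    Finset.sum_congr rfl fun c _ => Finset.sum_congr rfl fun d _ => ?_
  rw [Matrix.kroneckerMap_apply, Matrix.kroneckerMap_apply, Matrix.kroneckerMap_apply,
    mul_TF_apply, smul_eq_mul]
  ring

theorem sgl_TF (f : EE n → EE N) (x : EE n) :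
    sgl f x = ∑ p : Fin n × Fin n, ∑ q : Fin n × Fin n,
      ((gram f x)⁻¹ ⊗ₖ (gram f x)⁻¹) p q •
        sm_TF N (zl f x p.1 p.2 / ‖mcv f x‖ ^ 2) (bl f x q.1 q.2) := by
  simp only [Fintype.sum_prod_type]
  unfold sgl
  refine Finset.sum_congr rfl fun i _ => Finset.sum_congr rfl fun j _ =>
    Finset.sum_congr rfl fun k _ => Finset.sum_congr rfl fun l _ => ?_
  rw [Matrix.kroneckerMap_apply, sm_TF_apply, smul_smul]

/-- TF with finite order of smoothness -/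
theorem hTF2 (hI1 : StI1) (_hFR : StFR) (hNR : StNR) (_hSM : StSM) :
    ∀ (n N : ℕ) (f h : EE n → EE N) (φ : EE n → EE n) (x : EE n),
    ContDiffAt ℝ 2 f (φ x) → ContDiffAt ℝ 2 φ x → h =ᶠ[𝓝 x] (fun y => f (φ y)) → LI h x →
    ∀ J : Fin n → Fin n → ℝ, J = (fun k a => (inner ℝ (ee a) (fderiv ℝ φ x (ee k)) : ℝ)) →
    (∀ i j, bl h x i j = ∑ a, ∑ b, (J i a * J j b) • bl f (φ x) a b) ∧
    (∀ k, dv1 h x k = ∑ a, J k a • dv1 f (φ x) a) ∧
    (∀ b c, ∑ l, ∑ m, (gram h x)⁻¹ l m * J l b * J m c = (gram f (φ x))⁻¹ b c) ∧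
    rl h x = rl f (φ x) ∧ nl h x = nl f (φ x) ∧ sgl h x = sgl f (φ x) := by
  intro n N f h φ x hf2 hφ2 hh hLI J' hJ'
  set y := φ x with hy
  set J : Matrix (Fin n) (Fin n) ℝ := Matrix.of J' with hJdef
  have hJ : ∀ i, dv1 h x i = ∑ a, J i a • dv1 f y a := by
    intro i
    rw [Helper67.PI.first f h φ x hf2 hφ2 hh i, Helper67.PI.fderiv_expand]
    refine Finset.sum_congr rfl fun a _ => ?_
    rw [hJdef, Matrix.of_apply, hJ', ← hy]
    dsimp only
    rw [Helper80.PI2.ee_inner]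
  obtain ⟨hLIf, hspan, hdet⟩ := Helper67.PI.spans f h x y J hJ hLI
  have hnrm := Helper67.PI.nrm_eq hNR f h x y hLIf hLI hspan
  have hinv := Helper67.PI.gram_inv f h x y J hJ hdet
  obtain ⟨-, hm, -, -, -⟩ := hI1 n N f h φ x hf2 hφ2 hh hLI
  obtain ⟨-, f2, -, -, f5, f6, -, -⟩ := hNR n N f y hLIf
  have hJe : ∀ i a, (fderiv ℝ φ x (ee i)) a = J i a := by
    intro i a
    rw [hJdef, Matrix.of_apply, hJ']
    dsimp only
    rw [Helper80.PI2.ee_inner]
  have hsff : ∀ i j, sff h x i j = ∑ a, ∑ b, (J i a * J j b) • sff f y a b := by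
    intro i j
    let T : EE N →ₗ[ℝ] EE N :=
      { toFun := nrm f y, map_add' := f5, map_smul' := f6 }
    have hT : ∀ v, T v = nrm f y v := fun v => rfl
    unfold sff
    rw [hnrm, Helper67.PI.second f h φ x hf2 hφ2 hh i j, f5, f2 _ (Helper67.PI.fderiv_mem f y _),
      add_zero, Helper67.PI.second_expand f y hf2, ← hT, map_sum]
    refine Finset.sum_congr rfl fun a _ => ?_
    rw [map_sum]
    refine Finset.sum_congr rfl fun b _ => ?_
    rw [map_smul, hJe, hJe]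
    rfl
  have hm' : mcv h x = mcv f y := hm
  have hzl : ∀ i j, zl h x i j = ∑ a, ∑ b, (J i a * J j b) * zl f y a b := by
    intro i j
    unfold zl
    rw [hm', hsff, sum_inner]
    refine Finset.sum_congr rfl fun a _ => ?_
    rw [sum_inner]
    refine Finset.sum_congr rfl fun b _ => ?_
    rw [inner_smul_left]
    simp only [conj_trivial]
  have hbl : ∀ i j, bl h x i j = ∑ a, ∑ b, (J i a * J j b) • bl f y a b := by
    intro i j
    unfold bl
    rw [hm', hsff, hzl, Finset.sum_div, Finset.sum_smul, ← Finset.sum_sub_distrib]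
    refine Finset.sum_congr rfl fun a _ => ?_
    rw [Finset.sum_div, Finset.sum_smul, ← Finset.sum_sub_distrib]
    refine Finset.sum_congr rfl fun b _ => ?_
    rw [smul_sub, smul_smul, mul_div_assoc]
  have hblp : ∀ p : Fin n × Fin n, bl h x p.1 p.2 =
      ∑ r : Fin n × Fin n, (J ⊗ₖ J) p r • bl f y r.1 r.2 := by
    intro p
    rw [hbl, Fintype.sum_prod_type]
    rfl
  have hzlp : ∀ p : Fin n × Fin n, zl h x p.1 p.2 / ‖mcv h x‖ ^ 2 =
      ∑ r : Fin n × Fin n, (J ⊗ₖ J) p r • (zl f y r.1 r.2 / ‖mcv f y‖ ^ 2) := by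
    intro p
    rw [hzl, hm', Fintype.sum_prod_type, Finset.sum_div]
    refine Finset.sum_congr rfl fun a _ => ?_
    rw [Finset.sum_div]
    refine Finset.sum_congr rfl fun b _ => ?_
    rw [Matrix.kroneckerMap_apply, smul_eq_mul, mul_div_assoc]
  have hk := kron_TF _ _ J hinv
  have hk2 := kron_TF _ _ (J ⊗ₖ J) hk
  have hslp : ∀ p : (Fin n × Fin n) × (Fin n × Fin n), sl h x p.1.1 p.1.2 p.2.1 p.2.2 =
      ∑ r : (Fin n × Fin n) × (Fin n × Fin n), ((J ⊗ₖ J) ⊗ₖ (J ⊗ₖ J)) p r •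
        sl f y r.1.1 r.1.2 r.2.1 r.2.2 := by
    intro p
    have h1 := exp_TF (inn_TF N) (J ⊗ₖ J) (fun p : Fin n × Fin n => bl h x p.1 p.2)
      (fun p => bl f y p.1 p.2) (fun p => bl h x p.1 p.2) (fun p => bl f y p.1 p.2)
      hblp hblp p.1 p.2
    rw [Fintype.sum_prod_type]
    exact h1
  refine ⟨hbl, hJ, ?_, ?_, ?_, ?_⟩
  · intro b c
    rw [← hinv, Matrix.mul_apply]
    rw [Finset.sum_comm]
    refine Finset.sum_congr rfl fun m _ => ?_
    rw [Matrix.mul_apply, Finset.sum_mul]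
    refine Finset.sum_congr rfl fun l _ => ?_
    rw [Matrix.transpose_apply]
    show (gram h x)⁻¹ l m * J l b * J m c = J l b * (gram h x)⁻¹ l m * J m c
    ring
  · rw [rl_TF, rl_TF]
    exact bil_TF (inn_TF N) _ _ (J ⊗ₖ J) hk (fun p : Fin n × Fin n => bl h x p.1 p.2)
      (fun p => bl f y p.1 p.2) (fun p => bl h x p.1 p.2) (fun p => bl f y p.1 p.2) hblp hblp
  · rw [nl_TF, nl_TF]
    exact bil_TF mul_TF _ _ ((J ⊗ₖ J) ⊗ₖ (J ⊗ₖ J)) hk2
      (fun p : (Fin n × Fin n) × (Fin n × Fin n) => sl h x p.1.1 p.1.2 p.2.1 p.2.2)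
      (fun p => sl f y p.1.1 p.1.2 p.2.1 p.2.2)
      (fun p => sl h x p.1.1 p.1.2 p.2.1 p.2.2)
      (fun p => sl f y p.1.1 p.1.2 p.2.1 p.2.2) hslp hslp
  · rw [sgl_TF, sgl_TF]
    exact bil_TF (sm_TF N) _ _ (J ⊗ₖ J) hk
      (fun p : Fin n × Fin n => zl h x p.1 p.2 / ‖mcv h x‖ ^ 2)
      (fun p => zl f y p.1 p.2 / ‖mcv f y‖ ^ 2)
      (fun p => bl h x p.1 p.2) (fun p => bl f y p.1 p.2) hzlp hblp

/-- TF. transformation under reparametrisation -/
theorem hTF (hI1 : StI1) (hFR : StFR) (hNR : StNR) (hSM : StSM) : StTF := by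
  intro n N f h φ x hf hφ hh hLI J' hJ'
  exact hTF2 hI1 hFR hNR hSM n N f h φ x (hf.of_le (by decide)) (hφ.of_le (by decide)) hh hLI J' hJ'

end Helper23.SH
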