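import Mathlib
import Pool.Agent.Helper35.PI2.Defs

/-!
# Project SH (MP_b2fa09_gt): the sharp pinching constant `5/6` of self-shrinking surfaces

Definitions.  Everything of the projects PI and PI2 (`Pool/Agent/Helper35/PI`, `PI2`) is proved
and may be used.

A self-shrinker satisfies `H = -κ (f - c)^⊥`.  With `B` the part of the second fundamental form
orthogonal to `H`, `R = |B|²`, `N = Σ ⟨B_ij,B_kl⟩²`, `D = 3R² - 2N ≥ R²`, `Y = |H|²`,
`φ = κ|f-c|²/2`, `P = ∇φ`, `Θ = D Y exp(-φ)`, the field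
`v = ∇Θ - Θ X = exp(-φ) (Y ∇D + D ∇Y - 3 D Y P + 8 R Y ⟨σ,∇H⟩ - 2 R² (∇Y - Y P))`,
`σ = Σ (⟨A_ij,H⟩/Y) B_ij`, satisfies, for surfaces with `|A|² ≤ (5/6 - ε)|H|²`,
`Θ div v ≥ Θ² (6εY + |P|²/12) + ⟨∇Θ, v⟩`, `|X| ≤ 7|P|`.
The test field is `(Θ + δ)^(p-1) v`, `p = 1/500`.
-/

set_option autoImplicit false

namespace Helper23.SH

open Helper35.PI Helper35.PI2
open scoped ContDiff Manifold Topology ENNReal BigOperators
open MeasureTheory Set Filter

section Local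

variable {n N : ℕ}

/-- `z_ij = ⟨A_ij, H⟩` -/
noncomputable def zl (f : EE n → EE N) (x : EE n) (i j : Fin n) : ℝ :=
  inner ℝ (sff f x i j) (mcv f x)

/-- `B_ij = A_ij - (z_ij/|H|²) H` -/
noncomputable def bl (f : EE n → EE N) (x : EE n) (i j : Fin n) : EE N :=
  sff f x i j - (zl f x i j / ‖mcv f x‖ ^ 2) • mcv f x

/-- `S_ijkl = ⟨B_ij, B_kl⟩` -/
noncomputable def sl (f : EE n → EE N) (x : EE n) (i j k l : Fin n) : ℝ :=
  inner ℝ (bl f x i j) (bl f x k l)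

/-- raising the indices of `S` one after the other: `u1^i_jkl = G^ia S_ajkl`, etc. -/
noncomputable def u1 (f : EE n → EE N) (x : EE n) (i j k l : Fin n) : ℝ :=
  ∑ a, (gram f x)⁻¹ i a * sl f x a j k l
/-- second index -/
noncomputable def u2 (f : EE n → EE N) (x : EE n) (i j k l : Fin n) : ℝ :=
  ∑ a, (gram f x)⁻¹ j a * u1 f x i a k l
/-- third index -/
noncomputable def u3 (f : EE n → EE N) (x : EE n) (i j k l : Fin n) : ℝ :=
  ∑ a, (gram f x)⁻¹ k a * u2 f x i j a l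
/-- fourth index -/
noncomputable def u4 (f : EE n → EE N) (x : EE n) (i j k l : Fin n) : ℝ :=
  ∑ a, (gram f x)⁻¹ l a * u3 f x i j k a

/-- `R = |B|² = S^ij_ij` (first two indices raised) -/
noncomputable def rl (f : EE n → EE N) (x : EE n) : ℝ := ∑ i, ∑ j, u2 f x i j i j

/-- `N = S_ijkl S^ijkl` -/
noncomputable def nl (f : EE n → EE N) (x : EE n) : ℝ :=
  ∑ i, ∑ j, ∑ k, ∑ l, sl f x i j k l * u4 f x i j k l

/-- `D = 3R² - 2N` -/
noncomputable def ddl (f : EE n → EE N) (x : EE n) : ℝ := 3 * rl f x ^ 2 - 2 * nl f x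

/-- `σ = G^ik G^jl (z_ij/Y) B_kl` -/
noncomputable def sgl (f : EE n → EE N) (x : EE n) : EE N :=
  ∑ i, ∑ j, ∑ k, ∑ l,
    ((gram f x)⁻¹ i k * (gram f x)⁻¹ j l * (zl f x i j / ‖mcv f x‖ ^ 2)) • bl f x k l

/-- `q_k = ⟨σ, ∂_k H⟩` -/
noncomputable def ql (f : EE n → EE N) (x : EE n) (k : Fin n) : ℝ :=
  inner ℝ (sgl f x) (fderiv ℝ (mcv f) x (ee k))

/-- `φ = κ |f - c|²/2` -/
noncomputable def phl (κ : ℝ) (c : EE N) (f : EE n → EE N) (x : EE n) : ℝ :=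
  κ * ‖f x - c‖ ^ 2 / 2

/-- `P_k = ∂_k φ = κ ⟨f - c, f_k⟩` -/
noncomputable def pl (κ : ℝ) (c : EE N) (f : EE n → EE N) (x : EE n) (k : Fin n) : ℝ :=
  κ * inner ℝ (f x - c) (dv1 f x k)

/-- `Θ = D Y exp(-φ)` -/
noncomputable def thl (κ : ℝ) (c : EE N) (f : EE n → EE N) (x : EE n) : ℝ :=
  ddl f x * ‖mcv f x‖ ^ 2 * Real.exp (-phl κ c f x)

/-- the covector
`v_k exp(φ) = Y ∂_kD + D ∂_kY - 3 D Y P_k + 8 R Y q_k - 2 R² (∂_kY - Y P_k)` -/
noncomputable def vl (κ : ℝ) (c : EE N) (f : EE n → EE N) (x : EE n) (k : Fin n) : ℝ :=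
  ‖mcv f x‖ ^ 2 * fderiv ℝ (ddl f) x (ee k)
    + ddl f x * fderiv ℝ (fun y => ‖mcv f y‖ ^ 2) x (ee k)
    - 3 * ddl f x * ‖mcv f x‖ ^ 2 * pl κ c f x k
    + 8 * rl f x * ‖mcv f x‖ ^ 2 * ql f x k
    - 2 * rl f x ^ 2 * (fderiv ℝ (fun y => ‖mcv f y‖ ^ 2) x (ee k)
        - ‖mcv f x‖ ^ 2 * pl κ c f x k)

/-- the covector `(Θ + δ)^(p-1) v_k` -/
noncomputable def zcv (κ p δ : ℝ) (c : EE N) (f : EE n → EE N) (x : EE n) (k : Fin n) : ℝ :=
  (thl κ c f x + δ) ^ (p - 1) * Real.exp (-phl κ c f x) * vl κ c f x k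

/-- the tangential field `g^kl z_k ∂_l f` -/
noncomputable def zfd (κ p δ : ℝ) (c : EE N) (f : EE n → EE N) (x : EE n) : EE N :=
  ∑ k, ∑ l, ((gram f x)⁻¹ k l * zcv κ p δ c f x k) • dv1 f x l

/-! Space-time functions of a graph. -/

/-- `S_ijkl` of the graph -/
noncomputable def Slf (x₀ : EE N) (L : EE n →ₗᵢ[ℝ] EE N) (u : EE n × ℝ → EE N)
    (i j k l : Fin n) (z : EE n × ℝ) : ℝ := sl (grf x₀ L u z.2) z.1 i j k l
/-- `R` of the graph -/
noncomputable def Rlf (x₀ : EE N) (L : EE n →ₗᵢ[ℝ] EE N) (u : EE n × ℝ → EE N)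
    (z : EE n × ℝ) : ℝ := rl (grf x₀ L u z.2) z.1
/-- `N` of the graph -/
noncomputable def Nlf (x₀ : EE N) (L : EE n →ₗᵢ[ℝ] EE N) (u : EE n × ℝ → EE N)
    (z : EE n × ℝ) : ℝ := nl (grf x₀ L u z.2) z.1
/-- `D` of the graph -/
noncomputable def Dlf (x₀ : EE N) (L : EE n →ₗᵢ[ℝ] EE N) (u : EE n × ℝ → EE N)
    (z : EE n × ℝ) : ℝ := ddl (grf x₀ L u z.2) z.1
/-- `σ` of the graph -/
noncomputable def Sgf (x₀ : EE N) (L : EE n →ₗᵢ[ℝ] EE N) (u : EE n × ℝ → EE N)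
    (z : EE n × ℝ) : EE N := sgl (grf x₀ L u z.2) z.1
/-- `q_k` of the graph -/
noncomputable def Qlf (x₀ : EE N) (L : EE n →ₗᵢ[ℝ] EE N) (u : EE n × ℝ → EE N) (k : Fin n)
    (z : EE n × ℝ) : ℝ := ql (grf x₀ L u z.2) z.1 k

/-! Algebraic quantities of the 2-jet `A` and the 3-jet `T` (orthonormal frame). -/

/-- `h_ij = ⟨A_ij,H⟩/Y` -/
noncomputable def ha (A : Fin n → Fin n → EE N) (i j : Fin n) : ℝ := zz A i j / YY A
/-- `B_ij = A_ij - h_ij H` -/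
noncomputable def Bv (A : Fin n → Fin n → EE N) (i j : Fin n) : EE N :=
  A i j - ha A i j • Hv A
/-- the part of `v` orthogonal to `H` -/
noncomputable def pe (A : Fin n → Fin n → EE N) (v : EE N) : EE N :=
  v - (inner ℝ v (Hv A) / YY A) • Hv A
/-- `w_k`, the part of `∇_k H` orthogonal to `H` -/
noncomputable def wa (A : Fin n → Fin n → EE N) (T : Fin n → Fin n → Fin n → EE N)
    (k : Fin n) : EE N := pe A (et T k)
/-- `D_m B_ij` -/
noncomputable def DB (A : Fin n → Fin n → EE N) (T : Fin n → Fin n → Fin n → EE N)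
    (m i j : Fin n) : EE N := pe A (T m i j) - ha A i j • wa A T m
/-- `y_m = ⟨∇_m H, H⟩/Y` -/
noncomputable def ya (A : Fin n → Fin n → EE N) (T : Fin n → Fin n → Fin n → EE N)
    (m : Fin n) : ℝ := inner ℝ (et T m) (Hv A) / YY A
/-- `t_mij = ⟨T_mij, H⟩/Y` -/
noncomputable def ta (A : Fin n → Fin n → EE N) (T : Fin n → Fin n → Fin n → EE N)
    (m i j : Fin n) : ℝ := inner ℝ (T m i j) (Hv A) / YY A
/-- `∇_m h_ij` -/
noncomputable def dh (A : Fin n → Fin n → EE N) (T : Fin n → Fin n → Fin n → EE N)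
    (m i j : Fin n) : ℝ :=
  ta A T m i j - ha A i j * ya A T m + inner ℝ (Bv A i j) (wa A T m) / YY A
/-- `S_ijkl = ⟨B_ij,B_kl⟩` -/
noncomputable def Sa (A : Fin n → Fin n → EE N) (i j k l : Fin n) : ℝ :=
  inner ℝ (Bv A i j) (Bv A k l)
/-- gradient of `S_ijkl` -/
noncomputable def gS (A : Fin n → Fin n → EE N) (T : Fin n → Fin n → Fin n → EE N)
    (m i j k l : Fin n) : ℝ :=
  inner ℝ (DB A T m i j) (Bv A k l) + inner ℝ (Bv A i j) (DB A T m k l)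
/-- heat of `B_ij` (part orthogonal to `H`) -/
noncomputable def KB (A : Fin n → Fin n → EE N) (T : Fin n → Fin n → Fin n → EE N)
    (i j : Fin n) : EE N :=
  (∑ a, ∑ b, (Sa A i j a b - 2 * Sa A a i b j - 2 * YY A * ha A a i * ha A b j) • Bv A a b)
    + ∑ m, (2 * dh A T m i j) • wa A T m
/-- heat of `S_ijkl` -/
noncomputable def hS (A : Fin n → Fin n → EE N) (T : Fin n → Fin n → Fin n → EE N)
    (i j k l : Fin n) : ℝ :=
  inner ℝ (KB A T i j) (Bv A k l) + inner ℝ (Bv A i j) (KB A T k l)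
    - 2 * (∑ m, inner ℝ (DB A T m i j) (DB A T m k l))
    - 2 * (∑ m, inner ℝ (Bv A i j) (wa A T m) * inner ℝ (Bv A k l) (wa A T m)) / YY A
/-- `a_ik = Σ_c ⟨A_ic, A_kc⟩` -/
noncomputable def aa2 (A : Fin n → Fin n → EE N) (i k : Fin n) : ℝ :=
  ∑ c, inner ℝ (A i c) (A k c)
/-- `R` -/
noncomputable def Ra (A : Fin n → Fin n → EE N) : ℝ := ∑ i, ∑ j, Sa A i j i j
/-- gradient of `R` -/
noncomputable def gR (A : Fin n → Fin n → EE N) (T : Fin n → Fin n → Fin n → EE N)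
    (m : Fin n) : ℝ := ∑ i, ∑ j, gS A T m i j i j
/-- heat of `R` -/
noncomputable def hR (A : Fin n → Fin n → EE N) (T : Fin n → Fin n → Fin n → EE N) : ℝ :=
  (∑ i, ∑ j, hS A T i j i j) + 4 * ∑ i, ∑ k, ∑ j, aa2 A i k * Sa A i j k j
/-- `N` -/
noncomputable def Na (A : Fin n → Fin n → EE N) : ℝ :=
  ∑ i, ∑ j, ∑ k, ∑ l, Sa A i j k l ^ 2
/-- gradient of `N` -/
noncomputable def gN (A : Fin n → Fin n → EE N) (T : Fin n → Fin n → Fin n → EE N)
    (m : Fin n) : ℝ := 2 * ∑ i, ∑ j, ∑ k, ∑ l, Sa A i j k l * gS A T m i j k l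
/-- heat of `N` -/
noncomputable def hN (A : Fin n → Fin n → EE N) (T : Fin n → Fin n → Fin n → EE N) : ℝ :=
  2 * (∑ i, ∑ j, ∑ k, ∑ l, Sa A i j k l * hS A T i j k l)
    - 2 * (∑ m, ∑ i, ∑ j, ∑ k, ∑ l, gS A T m i j k l ^ 2)
    + 8 * ∑ i, ∑ a, ∑ j, ∑ k, ∑ l, aa2 A i a * (Sa A i j k l * Sa A a j k l)
/-- `D` -/
noncomputable def Da (A : Fin n → Fin n → EE N) : ℝ := 3 * Ra A ^ 2 - 2 * Na A
/-- gradient of `D` -/
noncomputable def gD (A : Fin n → Fin n → EE N) (T : Fin n → Fin n → Fin n → EE N)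
    (m : Fin n) : ℝ := 6 * Ra A * gR A T m - 2 * gN A T m
/-- heat of `D` -/
noncomputable def hD (A : Fin n → Fin n → EE N) (T : Fin n → Fin n → Fin n → EE N) : ℝ :=
  6 * Ra A * hR A T - 6 * (∑ m, gR A T m ^ 2) - 2 * hN A T
/-- `σ` -/
noncomputable def sga (A : Fin n → Fin n → EE N) : EE N := ∑ i, ∑ j, ha A i j • Bv A i j
/-- `q_k` -/
noncomputable def qa (A : Fin n → Fin n → EE N) (T : Fin n → Fin n → Fin n → EE N)
    (k : Fin n) : ℝ := inner ℝ (sga A) (et T k)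
/-- divergence of `q` -/
noncomputable def csa (A : Fin n → Fin n → EE N) (T : Fin n → Fin n → Fin n → EE N)
    (P : Fin n → ℝ) : ℝ :=
  (∑ k, (inner ℝ (∑ i, ∑ j, (dh A T k i j • Bv A i j + ha A i j • DB A T k i j)) (wa A T k)
      - inner ℝ (sga A) (wa A T k) * ya A T k + P k * inner ℝ (sga A) (wa A T k)))
    - YY A * ‖sga A‖ ^ 2
/-- `V_k` -/
noncomputable def Va (A : Fin n → Fin n → EE N) (T : Fin n → Fin n → Fin n → EE N)
    (P : Fin n → ℝ) (k : Fin n) : ℝ :=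
  YY A * gD A T k + Da A * gY A T k - 3 * Da A * YY A * P k + 8 * Ra A * YY A * qa A T k
    - 2 * Ra A ^ 2 * (gY A T k - YY A * P k)
/-- `G_k = ∂_k(D Y) - D Y P_k` -/
noncomputable def Ga (A : Fin n → Fin n → EE N) (T : Fin n → Fin n → Fin n → EE N)
    (P : Fin n → ℝ) (k : Fin n) : ℝ :=
  YY A * gD A T k + Da A * gY A T k - Da A * YY A * P k
/-- `exp(φ)` times the divergence of `v` -/
noncomputable def dva (A : Fin n → Fin n → EE N) (T : Fin n → Fin n → Fin n → EE N)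
    (P : Fin n → ℝ) : ℝ :=
  -(∑ k, P k * Va A T P k) + YY A * ((∑ k, P k * gD A T k) - hD A T)
    + 2 * (∑ k, gY A T k * gD A T k) + Da A * ((∑ k, P k * gY A T k) - hY A T)
    - 3 * ((∑ k, (Da A * gY A T k + YY A * gD A T k) * P k) - Da A * YY A ^ 2)
    + 8 * ((∑ k, (Ra A * gY A T k + YY A * gR A T k) * qa A T k)
        + Ra A * YY A * csa A T P)
    - 4 * Ra A * (∑ k, gR A T k * (gY A T k - YY A * P k))
    - 2 * Ra A ^ 2 * (YY A ^ 2 - hY A T)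

end Local

section Flow

variable {n N : ℕ} {M : Type} [TopologicalSpace M] [ChartedSpace (EE n) M]

/-- The flow is self-similarly shrinking: `H = -(F - c)^⊥ / (2 (T - t))` for a centre `c` and a
time `T ≥ 0`. -/
def SelfShrink (F : M → ℝ → EE N) : Prop :=
  ∃ (c : EE N) (T : ℝ), 0 ≤ T ∧ ∀ (p : M) (t : ℝ), t < 0 →
    nrm (loc (n := n) F p t) (chartAt (EE n) p p) (F p t - c)
      = (2 * (t - T)) • HH (n := n) F p t

/-- `H = -κ (F - c)^⊥` at time `t` -/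
def ShAt (n : ℕ) {N : ℕ} {M : Type} [TopologicalSpace M] [ChartedSpace (EE n) M]
    (F : M → ℝ → EE N) (κ : ℝ) (c : EE N) (t : ℝ) : Prop :=
  ∀ p : M, HH (n := n) F p t
    = (-κ) • nrm (loc (n := n) F p t) (chartAt (EE n) p p) (F p t - c)

/-- `R` of `M_t` at `p` -/
noncomputable def RF (n : ℕ) {N : ℕ} {M : Type} [TopologicalSpace M] [ChartedSpace (EE n) M]
    (F : M → ℝ → EE N) (p : M) (t : ℝ) : ℝ := rl (loc (n := n) F p t) (chartAt (EE n) p p)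
/-- `D` of `M_t` at `p` -/
noncomputable def DF (n : ℕ) {N : ℕ} {M : Type} [TopologicalSpace M] [ChartedSpace (EE n) M]
    (F : M → ℝ → EE N) (p : M) (t : ℝ) : ℝ := ddl (loc (n := n) F p t) (chartAt (EE n) p p)
/-- `Θ` of `M_t` at `p` -/
noncomputable def ThF (n : ℕ) {N : ℕ} {M : Type} [TopologicalSpace M] [ChartedSpace (EE n) M]
    (κ : ℝ) (c : EE N) (F : M → ℝ → EE N) (p : M) (t : ℝ) : ℝ :=
  thl κ c (loc (n := n) F p t) (chartAt (EE n) p p)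
/-- the field `Z` on `M_t` -/
noncomputable def ZfF (n : ℕ) {N : ℕ} {M : Type} [TopologicalSpace M] [ChartedSpace (EE n) M]
    (κ p δ : ℝ) (c : EE N) (F : M → ℝ → EE N) (t : ℝ) (q : M) : EE N :=
  zfd κ p δ c (loc (n := n) F q t) (chartAt (EE n) q q)

end Flow

/-- Every self-similarly shrinking, uniformly `c`-pinched flow of dimension `n` in the class of
the problem (for every `N`) is of codimension one. -/
def ForcesSim (n : ℕ) (c : ℝ) : Prop :=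
  ∀ (N : ℕ), n + 1 ≤ N → ∀ (M : Type) [TopologicalSpace M] [T2Space M]
    [SecondCountableTopology M] [ConnectedSpace M] [ChartedSpace (EE n) M]
    [IsManifold (𝓡 n) ∞ M] (F : M → ℝ → EE N),
    AncientMCF (n := n) F → SelfShrink (n := n) F → Pinched n c F → CodimOne n F

/-- The sharp pinching constant of the self-similarly shrinking solutions. -/
noncomputable def cSim (n : ℕ) : EReal :=
  sSup {x : EReal | ∃ c : ℝ, x = (c : EReal) ∧ 0 < c ∧ ForcesSim n c}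

end Helper23.SH
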