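import Mathlib
import Pool.Agent.Helper23.SH.Defs

/-!
Module statements of project SH (MP_b2fa09_gt): for surfaces the sharp pinching constant of the
self-similarly shrinking solutions is `5/6`, in every codimension.

For each `StX` the module proves `theorem hX : StX`, taking the listed statements (of this file,
of project PI `Helper35/PI/St*.lean` or of project PI2 `Helper35/PI2/St.lean`, all proved) as
hypotheses in the listed order. Complete proofs are in the docstrings. Every formula was checked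
with exact rational arithmetic on random jets of self-shrinkers.
Notation: `f_i = dv1 f x i`, `G = (gram f x)⁻¹`, `Y = |H|²`.
-/

set_option autoImplicit false

namespace Helper23.SH

open Helper35.PI Helper35.PI2
open scoped ContDiff Manifold Topology ENNReal BigOperators
open MeasureTheory Set Filter

/-! ### Part A: local quantities, invariance, smoothness -/

/-- TF (hI1)(hFR)(hNR)(hSM). Transformation under reparametrisation.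

Proof. Compare `Helper80/PI2/M_IA.lean` (module IA of PI2). `J_ka = ⟨e_a, Dφ e_k⟩`; near `x`
`h_k = Σ_a J_ka f_a(φ)`, `gram h x = J gram f (φ x) Jᵀ`, `det J ≠ 0`, `sff h x k l =
Σ_ab J_ka J_lb sff f (φ x) a b`, `mcv h x = mcv f (φ x)` (I1). So `zl`, `bl` (hence `sl`) transform as
stated (the factor `1/‖mcv‖²` is the same). Last claim: `(gram h)⁻¹ = J⁻ᵀ (gram f)⁻¹ J⁻¹`. For `rl`:
`u1 h i j k l = Σ (J⁻ᵀ)_ia J_jb J_kc J_ld u1 f a b c d` and so on: each raised index transforms with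
`J⁻ᵀ`, each lower index with `J`, and contracting a raised index with a lower one cancels
(`Σ_i (J⁻ᵀ)_ia J_ib = δ_ab`). Same for `nl` and `sgl`. -/
def StTF : Prop := ∀ (n N : ℕ) (f h : EE n → EE N) (φ : EE n → EE n) (x : EE n),
    ContDiffAt ℝ ∞ f (φ x) → ContDiffAt ℝ ∞ φ x → h =ᶠ[𝓝 x] (fun y => f (φ y)) → LI h x →
    ∀ J : Fin n → Fin n → ℝ, J = (fun k a => (inner ℝ (ee a) (fderiv ℝ φ x (ee k)) : ℝ)) →
    (∀ i j, bl h x i j = ∑ a, ∑ b, (J i a * J j b) • bl f (φ x) a b) ∧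
    (∀ k, dv1 h x k = ∑ a, J k a • dv1 f (φ x) a) ∧
    (∀ b c, ∑ l, ∑ m, (gram h x)⁻¹ l m * J l b * J m c = (gram f (φ x))⁻¹ b c) ∧
    rl h x = rl f (φ x) ∧ nl h x = nl f (φ x) ∧ sgl h x = sgl f (φ x)

/-- BS (hSM). Smoothness in space and time where `H ≠ 0`.

Proof. `gram⁻¹`, `sff`, `mcv` are smooth (SM), `‖mcv‖² ≠ 0` at `z₀`; all quantities are finite sums of
products and inner products of these and of `1/‖mcv‖²`. -/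
def StBS : Prop := ∀ (n N : ℕ) (f : EE n × ℝ → EE N) (z₀ : EE n × ℝ), ContDiffAt ℝ ∞ f z₀ →
    LI (fun y => f (y, z₀.2)) z₀.1 → mcv (fun y => f (y, z₀.2)) z₀.1 ≠ 0 →
    (∀ i j, ContDiffAt ℝ ∞ (fun z => zl (fun y => f (y, z.2)) z.1 i j) z₀) ∧
    (∀ i j, ContDiffAt ℝ ∞ (fun z => bl (fun y => f (y, z.2)) z.1 i j) z₀) ∧
    (∀ i j k l, ContDiffAt ℝ ∞ (fun z => sl (fun y => f (y, z.2)) z.1 i j k l) z₀) ∧
    ContDiffAt ℝ ∞ (fun z => rl (fun y => f (y, z.2)) z.1) z₀ ∧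
    ContDiffAt ℝ ∞ (fun z => nl (fun y => f (y, z.2)) z.1) z₀ ∧
    ContDiffAt ℝ ∞ (fun z => ddl (fun y => f (y, z.2)) z.1) z₀ ∧
    ContDiffAt ℝ ∞ (fun z => sgl (fun y => f (y, z.2)) z.1) z₀

/-- BP (hFR)(hNR). Positivity.

Proof. FR: `G = P Pᵀ`. With `β_ab = Σ_ij P_ia P_jb B_ij`: `rl = Σ_ab |β_ab|²`,
`nl = Σ_abcd ⟨β_ab,β_cd⟩² ≤ (Σ_ab |β_ab|²)²` (Cauchy-Schwarz). `R = nsq - zsq/Y`: expand
`⟨B_ij,B_kl⟩ = ⟨A_ij,A_kl⟩ - z_ij z_kl/Y`. -/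
def StBP : Prop := ∀ (n N : ℕ) (f : EE n → EE N) (x : EE n), LI f x → mcv f x ≠ 0 →
    0 ≤ rl f x ∧ 0 ≤ nl f x ∧ nl f x ≤ rl f x ^ 2 ∧
    rl f x = nsq f x - zsq f x / ‖mcv f x‖ ^ 2 ∧ 0 ≤ zsq f x

/-- ZS (hBS)(hBP)(hSM)(hFR)(hNR). The field `Z` in a chart; compare `Helper16/PI2/M_IS.lean`.

Proof. `thl ≥ 0` near `x` (BP: `ddl = 3R²-2N ≥ R² ≥ 0`), so `thl + δ > 0` and `(thl+δ)^(p-1)` is smooth
(`ContDiffAt.rpow_const_of_ne`); `fderiv` of smooth functions is smooth. `⟨zfd, f_k⟩ = Σ_jl G^jl z_j g_lk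
= z_k`; `mcv f x` is orthogonal to all `f_l` (NR). -/
def StZS : Prop := ∀ (n N : ℕ) (f : EE n → EE N) (x : EE n), ContDiffAt ℝ ∞ f x → LI f x →
    mcv f x ≠ 0 → ∀ (κ p δ : ℝ) (c : EE N), 0 < δ →
    ContDiffAt ℝ ∞ (zfd κ p δ c f) x ∧ (∀ k, ContDiffAt ℝ ∞ (fun y => zcv κ p δ c f y k) x) ∧
    (∀ k, (inner ℝ (zfd κ p δ c f x) (dv1 f x k) : ℝ) = zcv κ p δ c f x k) ∧
    zfd κ p δ c f x ∈ Submodule.span ℝ (range fun i => dv1 f x i) ∧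
    (inner ℝ (mcv f x) (zfd κ p δ c f x) : ℝ) = 0

/-- ZI (hTF)(hBS)(hI1)(hSM)(hZS). The field is invariant; compare `Helper80/PI2/M_IA.lean`,
`Helper45/PI2/M_IB.lean`.

Proof. All scalars `rl, ddl, ‖mcv‖², thl, phl` and the vectors `mcv`, `sgl` of `h` are those of `f` at
`φ(y)` for `y` near `x` (TF, I1 at every point near `x`), so their derivatives transform with `J`
(chain rule), and `pl h x k = Σ_a J_ka pl f (φ x) a` (`h - c = f∘φ - c`). Hence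
`zcv h x k = Σ_a J_ka zcv f (φ x) a`, and with the relation for `(gram h)⁻¹` (TF)
`zfd h = zfd f ∘ φ` near `x`; `dvc` of `X∘φ` as in `M_IB`. -/
def StZI : Prop := ∀ (n N : ℕ) (f h : EE n → EE N) (φ : EE n → EE n) (x : EE n),
    ContDiffAt ℝ ∞ f (φ x) → ContDiffAt ℝ ∞ φ x → h =ᶠ[𝓝 x] (fun y => f (φ y)) → LI h x →
    mcv h x ≠ 0 → ∀ (κ p δ : ℝ) (c : EE N), 0 < δ →
    thl κ c h x = thl κ c f (φ x) ∧
    (∀ k, zcv κ p δ c h x k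
      = ∑ a, (inner ℝ (ee a) (fderiv ℝ φ x (ee k)) : ℝ) * zcv κ p δ c f (φ x) a) ∧
    zfd κ p δ c h x = zfd κ p δ c f (φ x) ∧
    dvc h (zfd κ p δ c h) x = dvc f (zfd κ p δ c f) (φ x)

/-- ZM (hZS)(hZI)(hBP)(hBS)(hTF)(hI2)(hI3)(hI4). The quantities on `M_t`; compare
`Helper12/PI2/M_MA.lean`.

Proof. For `q'` in the source of the chart at `q`, `loc F q' t` near `chart q' q'` is
`loc F q t ∘ (transition)`, so by ZI, TF the quantities at `q'` are those of `loc F q t` at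
`chart q q'` (and `mcv` is `HH ≠ 0`, I3); smoothness from ZS, BS (slices of the smooth space time
map of I2). `dvg` is by definition the same sum as `dvc` applied to `y ↦ ZfF (symm y)`, which equals
`zfd (loc F q t) y` near `chart q q`. The inequalities are BP (`D = 3R²-2N`). -/
def StZM : Prop := ∀ (n N : ℕ) (M : Type) [TopologicalSpace M] [ChartedSpace (EE n) M]
    [IsManifold (𝓡 n) ∞ M] (F : M → ℝ → EE N), IsMCF (n := n) F → ∀ t < 0,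
    (∀ q : M, HH (n := n) F q t ≠ 0) → ∀ (κ : ℝ) (c : EE N),
    Continuous (fun q : M => ThF n κ c F q t) ∧
    (∀ q : M, ThF n κ c F q t = DF n F q t * ‖HH (n := n) F q t‖ ^ 2
      * Real.exp (-(κ * ‖F q t - c‖ ^ 2 / 2))) ∧
    (∀ q : M, 0 ≤ RF n F q t ∧ RF n F q t ^ 2 ≤ DF n F q t ∧ DF n F q t ≤ 3 * RF n F q t ^ 2 ∧
      RF n F q t = AA (n := n) F q t - ZF (n := n) F q t / ‖HH (n := n) F q t‖ ^ 2 ∧
      RF n F q t ≤ AA (n := n) F q t) ∧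
    ∀ (p δ : ℝ), 0 < δ →
      ContMDiff (𝓡 n) 𝓘(ℝ, EE N) 1 (ZfF n κ p δ c F t) ∧
      (∀ q, (inner ℝ (HH (n := n) F q t) (ZfF n κ p δ c F t q) : ℝ) = 0) ∧
      (∀ q, ZfF n κ p δ c F t q ∈ TS (n := n) F q t) ∧
      ∀ q, dvg (n := n) F (ZfF n κ p δ c F t) q t
        = dvc (loc (n := n) F q t) (zfd κ p δ c (loc (n := n) F q t)) (chartAt (EE n) q q)

/-! ### Part B: jets of a self-shrinker at the centre of a graph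

Throughout `A = jgg u (0,t₀)`, `T = jggg u (0,t₀)`, `P_k = κ⟨x₀ - c, L e_k⟩`. -/

/-- The graph is a self-shrinker at time `t₀`. -/
def GShr {n N : ℕ} (x₀ : EE N) (L : EE n →ₗᵢ[ℝ] EE N) (u : EE n × ℝ → EE N) (t₀ κ : ℝ)
    (c : EE N) : Prop :=
  ∀ᶠ x in 𝓝 (0 : EE n), mcv (grf x₀ L u t₀) x
    = (-κ) • nrm (grf x₀ L u t₀) x (grf x₀ L u t₀ x - c)

/-- SR (hNJ)(hGH)(hNR)(hG0)(hG1)(hG2)(hSM)(hJA). Consequences of the shrinker equation.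

Proof. `P_k = κ⟨x₀-c, L e_k⟩`, `w₀ = (x₀ - c) - Σ_k (P_k/κ) L e_k ⟂ L`. Put
`v z = w₀ + u z - Σ_k (z.1 k + P_k/κ) • jg u z k`, orthogonal to `L` near `(0,t₀)` (G2, `perp`). At
`t = t₀`, `grf x - c - v = Σ_k (x_k + P_k/κ)(L e_k + u_k)` lies in the tangent space, so
`mcv (grf) x = -κ nrm(v)` for `x` near `0` (NR). NJ for `v`: `v(0,t₀) = w₀` (`u = 0`, `u_k = 0`),
`jg v m = -Σ_k (P_k/κ) A m k` , `jgg v i j = -A i j - Σ_k (P_k/κ) T k i j`. Compare with GH for the same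
function `Hf` on the slice `t = t₀` (`jg`, `jgg` are spatial derivatives): value `Hv A = -κ w₀`; first
derivative, part orthogonal to `L`: `et T m = Σ P_k A m k` (`et T m ⟂ L`, G1); second derivative paired
with `w ⟂ L`: the sums over `a` agree because `-κ w₀ = Hv A`, so `⟨w, ut i j⟩ = -κ⟨w, jgg v i j⟩`. -/
def StSR : Prop := ∀ (n N : ℕ) (x₀ : EE N) (L : EE n →ₗᵢ[ℝ] EE N) (u : EE n × ℝ → EE N)
    (t₀ : ℝ), GraphSol x₀ L u t₀ → ∀ (κ : ℝ) (c : EE N), 0 < κ → GShr x₀ L u t₀ κ c →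
    ∀ (A : Fin n → Fin n → EE N) (T : Fin n → Fin n → Fin n → EE N) (P : Fin n → ℝ),
    A = jgg u (0, t₀) → T = jggg u (0, t₀) →
    P = (fun k => κ * inner ℝ (x₀ - c) (L (ee k))) →
    (∀ k, et T k = ∑ l, P l • A k l) ∧
    (∀ w : EE N, (∀ x : EE n, (inner ℝ w (L x) : ℝ) = 0) → ∀ i j,
      (inner ℝ w (ut u (0, t₀) i j) : ℝ)
        = κ * inner ℝ w (A i j) + ∑ k, P k * inner ℝ w (T k i j)) ∧
    Hv A = (-κ) • (x₀ - c) + ∑ k, P k • L (ee k)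

/-- TJ (hSR)(hGH)(hG0)(hG6)(hG8)(hJA)(hJB). Time derivatives at the centre.

Proof. `Rf i j k l z = ⟨Af i j z, Af k l z⟩`, `jt (Af i j)` is known against `w ⟂ L` (GH), `A_kl ⟂ L`
(G1): `jt R_ijkl = ⟨ut i j, A k l⟩ + ⟨A i j, ut k l⟩ = 2κ R_ijkl + Σ_m P_m jg R_ijkl m` (SR, G6).
`Y = Σ G_ij G_kl R_ijkl` near `(0,t₀)` (`mcv = Σ G_ij A_ij`), `jt G = 0`, `jg G = 0` (G0). -/
def StTJ : Prop := ∀ (n N : ℕ) (x₀ : EE N) (L : EE n →ₗᵢ[ℝ] EE N) (u : EE n × ℝ → EE N)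
    (t₀ : ℝ), GraphSol x₀ L u t₀ → ∀ (κ : ℝ) (c : EE N), 0 < κ → GShr x₀ L u t₀ κ c →
    ∀ (A : Fin n → Fin n → EE N) (T : Fin n → Fin n → Fin n → EE N) (P : Fin n → ℝ),
    A = jgg u (0, t₀) → T = jggg u (0, t₀) →
    P = (fun k => κ * inner ℝ (x₀ - c) (L (ee k))) →
    (∀ i j k l, jt (Rf x₀ L u i j k l) (0, t₀) = 2 * κ * Rf x₀ L u i j k l (0, t₀)
      + ∑ m, P m * jg (Rf x₀ L u i j k l) (0, t₀) m) ∧
    jt (Yf x₀ L u) (0, t₀) = 2 * κ * YY A + ∑ m, P m * gY A T m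

/-- SH (no hypotheses). Algebra: the heat of `S_ijkl = R_ijkl - z_ij z_kl/Y` from those of `R`, `z`, `Y`.

Notation: `r = ⟨A_ij,A_kl⟩`, `g_m = ⟨T_ijm,A_kl⟩ + ⟨A_ij,T_klm⟩`, `hr` = right side of G6,
`z_ij = zz A i j`, `gz A T i j m` its gradient, `hz i j = -2 Σ_m ⟨T_ijm, et_m⟩ + 2 Σ_ab ⟨A_ij,A_ab⟩ z_ab -
2 Σ_ab ⟨A_ai,A_bj⟩ z_ab` its heat, `Y, gY, hY`.
Proof. Write `A_ab = B_ab + h_ab H` with `⟨B_ab,H⟩ = 0`, `T_mij = θ_mij + t_mij H`, `et_m = w_m + y_m H`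
(`θ, w ⟂ H`). Then `z_ij = Y h_ij`, `R_ijab = S_ijab + Y h_ij h_ab`, `gz = Y (t + h y) + ⟨B_ij,w_m⟩`,
`gY_m = 2 Y y_m`, `ZZ = Y² Σ h²`. Insert and compare the coefficients; the sums over `a, b` are kept
(`∑ (..)` on both sides), only `ring`-type identities inside the sums and `∑ h_ab B_ab` = `sga A`. -/
def StSH : Prop := ∀ (n N : ℕ) (A : Fin n → Fin n → EE N) (T : Fin n → Fin n → Fin n → EE N),
    SymV A → Sym3V T → YY A ≠ 0 → ∀ i j k l : Fin n,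
    ∀ (hr : ℝ) (hz : Fin n → Fin n → ℝ),
    hr = -2 * (∑ m, inner ℝ (T i j m) (T k l m))
        + 2 * (∑ a, ∑ b, inner ℝ (A i j) (A a b) * inner ℝ (A k l) (A a b))
        - 2 * (∑ a, ∑ b, inner ℝ (A a i) (A b j) * inner ℝ (A a b) (A k l))
        - 2 * (∑ a, ∑ b, inner ℝ (A a k) (A b l) * inner ℝ (A a b) (A i j)) →
    (∀ i j, hz i j = -2 * (∑ m, inner ℝ (T i j m) (et T m))
        + 2 * (∑ a, ∑ b, inner ℝ (A i j) (A a b) * zz A a b)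
        - 2 * (∑ a, ∑ b, inner ℝ (A a i) (A b j) * zz A a b)) →
    Sa A i j k l = inner ℝ (A i j) (A k l) - zz A i j * zz A k l / YY A ∧
    (∀ m, gS A T m i j k l = (inner ℝ (T i j m) (A k l) + inner ℝ (A i j) (T k l m))
      - ((gz A T i j m * zz A k l + zz A i j * gz A T k l m) / YY A
        - zz A i j * zz A k l * gY A T m / YY A ^ 2)) ∧
    hS A T i j k l = hr
      - ((hz i j * zz A k l + zz A i j * hz k l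
            - 2 * ∑ m, gz A T i j m * gz A T k l m) / YY A
          - zz A i j * zz A k l * hY A T / YY A ^ 2
          + 2 * (∑ m, (gz A T i j m * zz A k l + zz A i j * gz A T k l m) * gY A T m)
              / YY A ^ 2
          - 2 * (zz A i j * zz A k l) * (∑ m, gY A T m ^ 2) / YY A ^ 3)

/-- SJ (hSH)(hTJ)(hBS)(hG0)(hG1)(hG5)(hG6)(hG8)(hJA)(hJB)(hJD). Jets of `S_ijkl` on the graph.

Proof. Near `(0,t₀)`: `z_ij = ⟨A_ij,H⟩ = Σ_ab G_ab R_ijab`, `S_ijkl = R_ijkl - z_ij z_kl/Y` (as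
`⟨B_ij,B_kl⟩ = ⟨A_ij,A_kl⟩ - z_ij z_kl/Y`). Jets of `z_ij` from G5, G6 (`jg G = 0`, `jh G_ab = 2 Σ_c
⟨A_ac,A_bc⟩`): value `zz`, gradient `gz`, heat `Σ_a jh R_ijaa + 2 Σ_abc ⟨A_ac,A_bc⟩ R_ijab = hz i j` (in
`Σ_a jh R_ijaa` the term `-2 Σ ⟨A_ca,A_ba⟩ ⟨A_cb, A_ij⟩` cancels the second sum, `Σ_a ⟨A_aa,A_cd⟩ =
z_cd`). Then products and quotient (JB, JD) and SH. Time derivative: TJ, `jt G = 0`, and
`jt (z z/Y)` by the product rule: `S` is homogeneous of degree 1 in `R`. -/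
def StSJ : Prop := ∀ (n N : ℕ) (x₀ : EE N) (L : EE n →ₗᵢ[ℝ] EE N) (u : EE n × ℝ → EE N)
    (t₀ : ℝ), GraphSol x₀ L u t₀ →
    ∀ (A : Fin n → Fin n → EE N) (T : Fin n → Fin n → Fin n → EE N),
    A = jgg u (0, t₀) → T = jggg u (0, t₀) → YY A ≠ 0 → ∀ i j k l : Fin n,
    ContDiffAt ℝ ∞ (Slf x₀ L u i j k l) (0, t₀) ∧
    Slf x₀ L u i j k l (0, t₀) = Sa A i j k l ∧
    (∀ m, jg (Slf x₀ L u i j k l) (0, t₀) m = gS A T m i j k l) ∧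
    jh (Slf x₀ L u i j k l) (0, t₀) = hS A T i j k l ∧
    ∀ (κ : ℝ) (c : EE N), 0 < κ → GShr x₀ L u t₀ κ c →
      jt (Slf x₀ L u i j k l) (0, t₀) = 2 * κ * Sa A i j k l
        + ∑ m, κ * inner ℝ (x₀ - c) (L (ee m)) * gS A T m i j k l

/-- RJ (hSJ)(hBS)(hG0)(hG1)(hG5)(hJA)(hJB). Jets of `R` on the graph.

Proof. `G = 1`, `jg G = 0`, `jt G = 0`, `jh G_ia = 2 aa2 A i a` at the centre (G0, G5). So for
`u1 = Σ_a G_ia S_ajkl`: value `S`, gradient `gS`, heat `hS_ijkl + 2 Σ_a aa2 i a S_ajkl`, time derivative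
that of `S`; the same for `u2`. `R = Σ u2_ijij`; the two extra terms are equal by the symmetries
`S_ijkl = S_jikl = S_klij` (rename the summation indices). -/
def StRJ : Prop := ∀ (n N : ℕ) (x₀ : EE N) (L : EE n →ₗᵢ[ℝ] EE N) (u : EE n × ℝ → EE N)
    (t₀ : ℝ), GraphSol x₀ L u t₀ →
    ∀ (A : Fin n → Fin n → EE N) (T : Fin n → Fin n → Fin n → EE N),
    A = jgg u (0, t₀) → T = jggg u (0, t₀) → YY A ≠ 0 →
    ContDiffAt ℝ ∞ (Rlf x₀ L u) (0, t₀) ∧ Rlf x₀ L u (0, t₀) = Ra A ∧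
    (∀ m, jg (Rlf x₀ L u) (0, t₀) m = gR A T m) ∧ jh (Rlf x₀ L u) (0, t₀) = hR A T ∧
    ∀ (κ : ℝ) (c : EE N), 0 < κ → GShr x₀ L u t₀ κ c →
      jt (Rlf x₀ L u) (0, t₀) = 2 * κ * Ra A
        + ∑ m, κ * inner ℝ (x₀ - c) (L (ee m)) * gR A T m

/-- NN (hSJ)(hBS)(hG0)(hG1)(hG5)(hJA)(hJB). Jets of `N` on the graph.

Proof. As RJ: `u4_ijkl` has at the centre the value `S_ijkl`, the gradient `gS`, the time derivative of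
`S`, and the heat `hS_ijkl + 2 Σ_a (aa2 i a S_ajkl + aa2 j a S_iakl + aa2 k a S_ijal + aa2 l a S_ijka)`
(`G = 1`, `jg G = jt G = 0`, `jh G_ia = 2 aa2 A i a`). `N = Σ S_ijkl u4_ijkl`; the four extra sums
`2 Σ aa2 i a S_ijkl S_ajkl` (etc.) are equal by the symmetries `S_ijkl = S_jikl = S_klij`. -/
def StNN : Prop := ∀ (n N : ℕ) (x₀ : EE N) (L : EE n →ₗᵢ[ℝ] EE N) (u : EE n × ℝ → EE N)
    (t₀ : ℝ), GraphSol x₀ L u t₀ →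
    ∀ (A : Fin n → Fin n → EE N) (T : Fin n → Fin n → Fin n → EE N),
    A = jgg u (0, t₀) → T = jggg u (0, t₀) → YY A ≠ 0 →
    ContDiffAt ℝ ∞ (Nlf x₀ L u) (0, t₀) ∧ Nlf x₀ L u (0, t₀) = Na A ∧
    (∀ m, jg (Nlf x₀ L u) (0, t₀) m = gN A T m) ∧ jh (Nlf x₀ L u) (0, t₀) = hN A T ∧
    ∀ (κ : ℝ) (c : EE N), 0 < κ → GShr x₀ L u t₀ κ c →
      jt (Nlf x₀ L u) (0, t₀) = 4 * κ * Na A
        + ∑ m, κ * inner ℝ (x₀ - c) (L (ee m)) * gN A T m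

/-- DJ (hRJ)(hNN)(hJA)(hJB). Jets of `D` on the graph: `D = 3R² - 2N`, product rule. -/
def StDJ : Prop := ∀ (n N : ℕ) (x₀ : EE N) (L : EE n →ₗᵢ[ℝ] EE N) (u : EE n × ℝ → EE N)
    (t₀ : ℝ), GraphSol x₀ L u t₀ →
    ∀ (A : Fin n → Fin n → EE N) (T : Fin n → Fin n → Fin n → EE N),
    A = jgg u (0, t₀) → T = jggg u (0, t₀) → YY A ≠ 0 →
    ContDiffAt ℝ ∞ (Dlf x₀ L u) (0, t₀) ∧ Dlf x₀ L u (0, t₀) = Da A ∧
    (∀ m, jg (Dlf x₀ L u) (0, t₀) m = gD A T m) ∧ jh (Dlf x₀ L u) (0, t₀) = hD A T ∧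
    ∀ (κ : ℝ) (c : EE N), 0 < κ → GShr x₀ L u t₀ κ c →
      jt (Dlf x₀ L u) (0, t₀) = 4 * κ * Da A
        + ∑ m, κ * inner ℝ (x₀ - c) (L (ee m)) * gD A T m

/-- QA (hGH)(hBS)(hG0)(hG1)(hG2)(hSM)(hJA)(hJB). First derivatives of `σ` on the graph.

Proof. `Sgf = Σ G_ik G_jl h_ij b_kl` with `h_ij = z_ij/Y`, `b_ij = Af i j - h_ij Hf` near `(0,t₀)`,
`z_ij = ⟨Af i j, Hf⟩`, `Y = |Hf|²`; `G = 1`, `jg G = 0` at the centre (G0). GH: `Af i j = A_ij`,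
`Hf = Hv A`, `jg (Af i j) m = T_ijm - Σ_a ⟨A_ij,A_am⟩ L e_a`, `jg Hf m = et T m - Σ_a ⟨H,A_am⟩ L e_a`
(read off from GH), and `A, T, H ⟂ L` (G1). So `jg z_ij m = gz A T i j m`, `jg Y m = gY A T m`,
`h_ij = ha A i j`, `jg h_ij m = dh A T m i j` (write `T_mij = pe T_mij + t_mij H` etc.), `b_ij = Bv A i j`,
`jg b_ij m = jg (Af i j) m - dh_mij H - h_ij jg Hf m`, whose parts along `L` combine to
`-Σ_a ⟨B_ij,A_am⟩ L e_a`. -/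
def StQA : Prop := ∀ (n N : ℕ) (x₀ : EE N) (L : EE n →ₗᵢ[ℝ] EE N) (u : EE n × ℝ → EE N)
    (t₀ : ℝ), GraphSol x₀ L u t₀ →
    ∀ (A : Fin n → Fin n → EE N) (T : Fin n → Fin n → Fin n → EE N),
    A = jgg u (0, t₀) → T = jggg u (0, t₀) → YY A ≠ 0 →
    ContDiffAt ℝ ∞ (Sgf x₀ L u) (0, t₀) ∧ Sgf x₀ L u (0, t₀) = sga A ∧
    ∀ m, jg (Sgf x₀ L u) (0, t₀) m
      = (∑ i, ∑ j, (dh A T m i j • Bv A i j
          + ha A i j • (T i j m - dh A T m i j • Hv A - ha A i j • et T m)))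
        - ∑ a, (inner ℝ (sga A) (A a m) : ℝ) • L (ee a)

/-- QJ (hSR)(hQA)(hGH)(hG0)(hG1)(hG2)(hSM)(hJA)(hJB). Jets of `q_k = ⟨σ, ∂_k H⟩` on the graph.

Proof. `Qlf k z = ⟨Sgf z, jg Hf z k⟩` near `(0,t₀)` (slice derivative). So
`Σ_k jg Q_k k = Σ_k ⟨jg Sgf k, jg Hf k⟩ + ⟨σ, Σ_k jgg Hf k k⟩`, `jg Hf k = et T k - Σ_a ⟨H,A_ak⟩ L e_a`
(GH). First sum: the `L`-parts give `Σ_ka ⟨σ,A_ak⟩⟨H,A_ak⟩ = Y|σ|²` (`⟨σ,A_ak⟩ = ⟨σ,B_ak⟩` as `⟨σ,H⟩ = 0`,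
`⟨H,A_ak⟩ = Y h_ak`, `σ = Σ h_ak B_ak`); the rest is `Σ_k ⟨s_k, et_k⟩`,
`s_k = Σ_ij (dh B + h (T - dh H - h et))`. Decompose `et_k = w_k + y_k H`: `⟨s_k, w_k⟩ =
⟨Σ_ij (dh B + h DB), w_k⟩` (`DB = pe T - h w`), and
`⟨s_k, H⟩ = Σ_ij h_ij Y (t_kij - dh_kij - h_ij y_k) = -Σ h_ij ⟨B_ij, w_k⟩ = -⟨σ,w_k⟩` (definition of `dh`).
Second sum: GH with `w = σ ⟂ L`: `Σ_k⟨σ, jgg Hf k k⟩ = Σ_k⟨σ, ut k k⟩ - 2 Σ_ka ⟨H,A_ak⟩⟨σ,A_ak⟩` (see GH)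
`= κ⟨σ,H⟩ + Σ_k P_k ⟨σ, et_k⟩ - 2Y|σ|²` (SR with `i = j` summed). Sum: `csa`. -/
def StQJ : Prop := ∀ (n N : ℕ) (x₀ : EE N) (L : EE n →ₗᵢ[ℝ] EE N) (u : EE n × ℝ → EE N)
    (t₀ : ℝ), GraphSol x₀ L u t₀ → ∀ (κ : ℝ) (c : EE N), 0 < κ → GShr x₀ L u t₀ κ c →
    ∀ (A : Fin n → Fin n → EE N) (T : Fin n → Fin n → Fin n → EE N) (P : Fin n → ℝ),
    A = jgg u (0, t₀) → T = jggg u (0, t₀) →
    P = (fun k => κ * inner ℝ (x₀ - c) (L (ee k))) → YY A ≠ 0 →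
    (∀ k, ContDiffAt ℝ ∞ (Qlf x₀ L u k) (0, t₀) ∧ Qlf x₀ L u k (0, t₀) = qa A T k) ∧
    ∑ k, jg (Qlf x₀ L u k) (0, t₀) k = csa A T P

/-- FA (hSR)(hTJ)(hRJ)(hDJ)(hQJ)(hBS)(hBP)(hG0)(hG1)(hG2)(hG8)(hSM)(hJA)(hJB). The covector at the
centre, `n = 2`; compare `Helper92/PI2/M_GV.lean`.

Proof. For `x` near `0` all functions are slices: `vl x k = Y D_k + D Y_k - 3DY P_k + 8RY q_k -
2R²(Y_k - Y P_k)` with `D = Dlf`, `R = Rlf`, `Y = Yf`, `q = Qlf`, `P_k(x) = κ⟨grf - c, L e_k + u_k⟩`,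
`φ(x) = κ|grf - c|²/2`, `∂_k φ = P_k`. At `0`: `∂_m P_k = κ δ_km + κ⟨x₀-c, A_mk⟩ = κ δ_km - zz A m k`
(SR third part; `A ⟂ L`), so `Σ_k ∂_k P_k = 2κ - Y`. `Σ_k ∂_k∂_k D = jt D - jh D = 4κD + Σ P_k gD_k - hD`
(DJ), `Σ_k ∂_k∂_k Y = 2κY + Σ P_k gY_k - hY` (TJ, G8), `Σ_k ∂_k q_k = csa` (QJ). Hence
`Σ_k ∂_k (exp(-φ) vl_k) = exp(-φ) dva` (the terms with `κ` cancel: `4+2-6 = 0`, `2-2 = 0`) and, with
`Θ = D Y exp(-φ)`, `∂_kΘ = exp(-φ) Ga_k`, the product rule for `(Θ+δ)^(p-1)` (`D ≥ 0` by BP). -/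
def StFA : Prop := ∀ (N : ℕ) (x₀ : EE N) (L : EE 2 →ₗᵢ[ℝ] EE N) (u : EE 2 × ℝ → EE N)
    (t₀ : ℝ), GraphSol x₀ L u t₀ → ∀ (κ : ℝ) (c : EE N), 0 < κ → GShr x₀ L u t₀ κ c →
    ∀ (A : Fin 2 → Fin 2 → EE N) (T : Fin 2 → Fin 2 → Fin 2 → EE N) (P : Fin 2 → ℝ),
    A = jgg u (0, t₀) → T = jggg u (0, t₀) →
    P = (fun k => κ * inner ℝ (x₀ - c) (L (ee k))) → YY A ≠ 0 →
    ∀ (E Θ : ℝ), E = Real.exp (-(κ * ‖x₀ - c‖ ^ 2 / 2)) → Θ = Da A * YY A * E →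
    thl κ c (grf x₀ L u t₀) 0 = Θ ∧ rl (grf x₀ L u t₀) 0 = Ra A ∧
    ∀ (p δ : ℝ), 0 < δ →
      (∀ k, zcv κ p δ c (grf x₀ L u t₀) 0 k = (Θ + δ) ^ (p - 1) * E * Va A T P k) ∧
      ∑ k, fderiv ℝ (fun y => zcv κ p δ c (grf x₀ L u t₀) y k) 0 (ee k)
        = (Θ + δ) ^ (p - 1) * E * dva A T P
          + (p - 1) * (Θ + δ) ^ (p - 2) * E ^ 2 * ∑ k, Ga A T P k * Va A T P k

/-- FB (hZS)(hG0)(hG1)(hG2)(hSM). The field at the centre of a graph, any `n`; compare the end of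
`Helper92/PI2/M_GV.lean`.

Proof. `zfd x = Σ_kl G_kl z_k (L e_l + u_l)` near `0`, `G = 1`, `∂G = 0`, `u_l = 0`, `⟨∂_i u_l, L e_j⟩ = 0`
at `0` (`u_li ⟂ L`), `dv1 j = L e_j` at `0`; `z_k` is smooth at `0` (ZS). -/
def StFB : Prop := ∀ (n N : ℕ) (x₀ : EE N) (L : EE n →ₗᵢ[ℝ] EE N) (u : EE n × ℝ → EE N)
    (t₀ : ℝ), GraphSol x₀ L u t₀ → mcv (grf x₀ L u t₀) 0 ≠ 0 →
    ∀ (κ p δ : ℝ) (c : EE N), 0 < δ →
      zfd κ p δ c (grf x₀ L u t₀) 0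
        = ∑ k, zcv κ p δ c (grf x₀ L u t₀) 0 k • L (ee k) ∧
      dvc (grf x₀ L u t₀) (zfd κ p δ c (grf x₀ L u t₀)) 0
        = ∑ k, fderiv ℝ (fun y => zcv κ p δ c (grf x₀ L u t₀) y k) 0 (ee k)

/-- BR (hFA)(hFB)(hSR)(hZI)(hZM)(hTF)(hC1)(hC2)(hC3)(hI2)(hI3)(hSM)(hNR)(hG1)(hG7)(hG8). From the flow to
the algebra, `n = 2`; compare `Helper15/PI2/M_MG.lean`.

Proof. As `MG`: `f(y,s) = F (symm y) s` in the chart at `q`, `y₀ = chart q`, `L` from C1, `ψ` from C2,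
`u` from C3, a `GraphSol`, `grf t = f(·,t)∘ψ(·,t)` near `0`. `GShr`: `ShAt` at the points
`symm (ψ(x,t))`; `HH`, and the normal projection of the chart at that point agree with `mcv` and `nrm`
of `f(·,t)` at `ψ(x,t)` and of `grf` at `x` (I3, I1: the tangent spaces agree, and `nrm` depends only
on the tangent space by NR). Then FA, FB, ZI (with `φ = ψ(·,t)`, `x = 0`) and ZM. `Σ P_k² =
κ² |tangential part of F - c|² ≤ κ²‖F - c‖²`. `‖zfd‖² = Σ z_k²` (`L` isometry). -/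
def StBR : Prop := ∀ (N : ℕ) (M : Type) [TopologicalSpace M] [ChartedSpace (EE 2) M]
    [IsManifold (𝓡 2) ∞ M] (F : M → ℝ → EE N), IsMCF (n := 2) F → ∀ t < 0,
    (∀ q : M, HH (n := 2) F q t ≠ 0) → ∀ (κ : ℝ) (c : EE N), 0 < κ → ShAt 2 F κ c t →
    ∀ q : M, ∃ (A : Fin 2 → Fin 2 → EE N) (T : Fin 2 → Fin 2 → Fin 2 → EE N) (P : Fin 2 → ℝ),
      SymV A ∧ Sym3V T ∧ (∀ k, et T k = ∑ l, P l • A k l) ∧
      AA (n := 2) F q t = XX A ∧ ‖HH (n := 2) F q t‖ ^ 2 = YY A ∧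
      ∑ k, P k ^ 2 ≤ κ ^ 2 * ‖F q t - c‖ ^ 2 ∧
      ThF 2 κ c F q t = Da A * YY A * Real.exp (-(κ * ‖F q t - c‖ ^ 2 / 2)) ∧
      ∀ (p δ E Θ : ℝ), 0 < δ → E = Real.exp (-(κ * ‖F q t - c‖ ^ 2 / 2)) →
        Θ = ThF 2 κ c F q t →
        ‖ZfF 2 κ p δ c F t q‖ ^ 2 = ∑ k, ((Θ + δ) ^ (p - 1) * E * Va A T P k) ^ 2 ∧
        dvg (n := 2) F (ZfF 2 κ p δ c F t) q t
          = (Θ + δ) ^ (p - 1) * E * dva A T P
            + (p - 1) * (Θ + δ) ^ (p - 2) * E ^ 2 * ∑ k, Ga A T P k * Va A T P k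

/-! ### Part C: algebra in dimension two -/

/-- AL. The main algebraic inequality (proved by helper23). -/
def StAL : Prop := ∀ (N : ℕ) (A : Fin 2 → Fin 2 → EE N) (T : Fin 2 → Fin 2 → Fin 2 → EE N)
    (P : Fin 2 → ℝ), SymV A → Sym3V T → 0 < YY A → (∀ k, et T k = ∑ l, P l • A k l) →
    ∀ ε : ℝ, 0 ≤ ε → XX A ≤ (5 / 6 - ε) * YY A →
    0 ≤ Da A ∧ (Da A = 0 → dva A T P = 0) ∧
    (Da A * YY A) ^ 2 * (6 * ε * YY A + (∑ k, P k ^ 2) / 12) + ∑ k, Ga A T P k * Va A T P k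
      ≤ Da A * YY A * dva A T P ∧
    ∑ k, (Ga A T P k - Va A T P k) ^ 2 ≤ 49 * (Da A * YY A) ^ 2 * ∑ k, P k ^ 2

/-- PQ (no hypotheses). Real inequality behind the test function, `p = 1/500`.

Here `g2 = |G|²`, `v2 = |V|²`, `gv = ⟨G,V⟩` (two-dimensional vectors `G = ∇Θ`, `V = G - ΘX`),
`x2 = |X|²`, `π = |P|²`, `b = ‖F‖/R²`, `c = 6εY`, `ψ` the cut-off, `FZ = ⟨F, Z⟩`, `‖Z‖ = (Θ+δ)^(p-1)|V|`.

Proof. If `Θ = 0`: the hypotheses give `gv ≤ 0` and `|G-V|² ≤ 0`, so `V = G`, `g2 = gv ≤ 0`, `G = V = 0`,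
`FZ = 0`, the left side is `0` and the right side is `≥ 0` because `0 ≤ dv`. If `Θ > 0`, write `u = Θ + δ`.
`dv ≥ Θ(c + π/12) + gv/Θ`, so
`u^(p-1) dv + (p-1) u^(p-2) gv ≥ u^(p-1) Θ (c + π/12) + u^(p-2) (p + δ/Θ) gv`.
`gv = g2 - ⟨G,G-V⟩`, `|⟨G,G-V⟩| ≤ √g2 · Θ√x2` with `Θ² x2 = |G-V|² ≤ 49 Θ² π`. So
`p gv ≥ (p/2) g2 - (p/2) Θ² x2`, `(δ/Θ) gv ≥ -(δ/Θ) Θ² x2/4 = -δΘ x2/4`.
Cut-off term: `8 b ψ³ u^(p-1) √v2 ≤ 8 b ψ³ u^(p-1) (√g2 + Θ√x2) ≤ ψ⁴ u^(p-2) ((p/4) g2 + (p/4) Θ² x2) +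
(128/p) b² ψ² u^p`. Total: `≥ ψ⁴ u^(p-1) Θ c + ψ⁴ u^(p-2) (Θ u π/12 - (3p/4) Θ² x2 - δΘ x2/4) - (128/p) b² ψ² u^p`,
and `(3p/4)·49 ≤ 1/12`, `Θ ≤ u`, and `u^(p-2) δ Θ ≤ δ^p` (`u ≥ δ`, `u ≥ Θ`), `x2/4 ≤ 49π/4 ≤ 13π`. -/
def StPQ : Prop := ∀ (Θ δ c π ψ b dv : ℝ) (G V : Fin 2 → ℝ) (FZ : ℝ), 0 ≤ Θ → 0 < δ → 0 ≤ c →
    0 ≤ π → 0 ≤ ψ → ψ ≤ 1 → 0 ≤ b →
    Θ ^ 2 * (c + π / 12) + ∑ k, G k * V k ≤ Θ * dv →
    (Θ = 0 → 0 ≤ dv) →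
    ∑ k, (G k - V k) ^ 2 ≤ 49 * Θ ^ 2 * π →
    |FZ| ≤ (Θ + δ) ^ ((1 / 500 : ℝ) - 1) * Real.sqrt (∑ k, V k ^ 2) →
    ψ ^ 4 * (c * (Θ * (Θ + δ) ^ ((1 / 500 : ℝ) - 1)))
      ≤ ψ ^ 4 * ((Θ + δ) ^ ((1 / 500 : ℝ) - 1) * dv
            + ((1 / 500 : ℝ) - 1) * (Θ + δ) ^ ((1 / 500 : ℝ) - 2) * ∑ k, G k * V k)
        - 8 * b * ψ ^ 3 * FZ
        + 64000 * b ^ 2 * ψ ^ 2 * (Θ + δ) ^ (1 / 500 : ℝ) + 13 * ψ ^ 4 * δ ^ (1 / 500 : ℝ) * π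

/-! ### Part D: integration -/

/-- PT (hBR)(hAL)(hPQ)(hZM)(hEQ). The pointwise inequality for the cut-off field, `p = 1/500`.

Proof. At `q` take `A, T, P` from BR, `E = exp(..) ∈ (0,1]`, `Θ = Da YY E`. AL multiplied by `E²`: with
`G_k = E Ga_k`, `V_k = E Va_k`, `dv = E dva`: `Θ²(6εY + π/12) + Σ G V ≤ Θ dv`, `Σ(G-V)² ≤ 49 Θ² π`,
`π = Σ P² ≤ κ²‖F-c‖²`. If `Θ = 0` then `Da = 0` (`YY, E > 0`) and `dva = 0` (AL). EQ: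
`dvg(ψ⁴Z) = ψ⁴ dvg Z - (8/R²) ψ³ ⟨F,Z⟩`; PQ with `b = ‖F‖/R²` and `FZ = ⟨F,Z⟩/‖F‖` (if `F = 0` take
`FZ = 0`), `|FZ| ≤ ‖Z‖` (BR). If `ψ > 0` then `‖F‖ < R`, so `b² ≤ 1/R²`; if `ψ = 0` both sides are fine
(`dvg (ψ⁴Z) = 0`). -/
def StPT : Prop := ∀ (N : ℕ) (M : Type) [TopologicalSpace M] [ChartedSpace (EE 2) M]
    [IsManifold (𝓡 2) ∞ M] (F : M → ℝ → EE N), IsMCF (n := 2) F → ∀ t < 0,
    (∀ q : M, HH (n := 2) F q t ≠ 0) → ∀ (κ : ℝ) (c : EE N), 0 < κ → ShAt 2 F κ c t →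
    ∀ ε : ℝ, 0 < ε →
    (∀ q : M, AA (n := 2) F q t ≤ (5 / 6 - ε) * ‖HH (n := 2) F q t‖ ^ 2) →
    ∀ (R δ : ℝ), 0 < R → 0 < δ → ∀ q : M,
      psR R F q t ^ 4 * (6 * ε * ‖HH (n := 2) F q t‖ ^ 2 *
          (ThF 2 κ c F q t * (ThF 2 κ c F q t + δ) ^ ((1 / 500 : ℝ) - 1)))
        ≤ dvg (n := 2) F (fun q => psR R F q t ^ 4 • ZfF 2 κ (1 / 500) δ c F t q) q t
          + indicator {q : M | ‖F q t‖ ≤ R} (fun q =>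
            64000 / R ^ 2 * (ThF 2 κ c F q t + δ) ^ (1 / 500 : ℝ)
              + 13 * δ ^ (1 / 500 : ℝ) * (κ ^ 2 * ‖F q t - c‖ ^ 2)) q

/-- IN (hV6)(hLL)(hV1)(hI2)(hI4). Integration of a divergence inequality over `M_t`; compare
`Helper84/PI2/M_EI.lean`, `Helper79/PI2/M_LL.lean`, `Helper42/PI2/M_LT.lean`.

Proof. `X` has compact support (closed subset of `{‖F‖ ≤ R}`). Let `s` be the finite set of `i` with
`tsupport χ_i ∩ {‖F‖ ≤ R} ≠ ∅`. V6 (with `⟨H,X⟩ = 0`): `Σ_{i∈s} ∫ χ_i (dvg X) σ = 0`. Multiply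
`g ≤ dvg X + 1_{‖F‖≤R} a` by `χ_i σ ≥ 0`, integrate and sum: `Σ_{i∈s} ∫ χ_i g σ ≤ Σ_{i∈s} ∫ χ_i 1 a σ`.
Both sides are the `Lam`'s (LL; `g` vanishes outside the ball, `χ_i = 0` on the ball for `i ∉ s`).
Integrability: `χ_i ∘ symm` has support in a compact subset of the target, `g` and `a` are continuous,
the ball is closed, `σ` is continuous (V1). -/
def StIN : Prop := ∀ (n N : ℕ) (M : Type) [TopologicalSpace M] [T2Space M]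
    [ChartedSpace (EE n) M] [IsManifold (𝓡 n) ∞ M] (F : M → ℝ → EE N), IsMCF (n := n) F →
    ∀ (t R : ℝ), t < 0 → 0 < R → IsCompact {q : M | ‖F q t‖ ≤ R} →
    ∀ (c : ℕ → M) (χ : ℕ → M → ℝ), PU n c χ → ∀ X : M → EE N,
    ContMDiff (𝓡 n) 𝓘(ℝ, EE N) 1 X → (∀ q, X q ≠ 0 → ‖F q t‖ ≤ R) →
    (∀ q, (inner ℝ (HH (n := n) F q t) (X q) : ℝ) = 0) →
    ∀ g a : M → ℝ, Continuous g → Continuous a → (∀ q, 0 ≤ g q) → (∀ q, 0 ≤ a q) →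
    (∀ q, R < ‖F q t‖ → g q = 0) →
    (∀ q, g q ≤ dvg (n := n) F X q t + indicator {q : M | ‖F q t‖ ≤ R} a q) →
    Lam (n := n) F c χ t (fun q => ENNReal.ofReal (g q))
      ≤ Lam (n := n) F c χ t
        (fun q => ENNReal.ofReal (indicator {q : M | ‖F q t‖ ≤ R} a q))

/-- LM (hI3)(hV1)(hI2)(hI4). The limit `δ → 0`, `R → ∞` (`p = 1/500` is only used through
`0 < p < 1`).

Proof. Suppose `Θ q₀ > 0`, `ρ = ‖F q₀ t‖ + 1`. Let `m₀ = Lam(1_{‖F‖≤ρ} (81/256) C₀ Y Θ (Θ+1)^(p-1)) > 0` (the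
integrand is continuous and positive near `q₀`; choose `i` with `χ_i q₀ > 0`; compare
`Helper35/PI2/M_ZE.lean`). For `R ≥ 2ρ`, `δ ≤ 1`: on `‖F‖ ≤ ρ`, `ψ ≥ 3/4` and `(Θ+δ)^(p-1) ≥ (Θ+1)^(p-1)`,
so the left side of the hypothesis is `≥ m₀`. Right side: `(Θ+δ)^p ≤ Θ^p + δ^p`; given `η > 0`, with `R₁` for
`η`, `Θ^p ≤ B^p` on `‖F‖ ≤ R₁` and `≤ η^p` outside, so the right side is at most
`(C₁/R²)(B^p CA R₁² + η^p CA R² + δ^p CA R²) + C₂ δ^p (1+R)² CA R²`. Choose `η`, then `R`, then `δ`: `< m₀`. -/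
def StLM : Prop := ∀ (N : ℕ) (M : Type) [TopologicalSpace M] [T2Space M]
    [ChartedSpace (EE 2) M] [IsManifold (𝓡 2) ∞ M] (F : M → ℝ → EE N), IsMCF (n := 2) F →
    ∀ t < 0, ∀ (c : ℕ → M) (χ : ℕ → M → ℝ), PU 2 c χ → ∀ CA : ℝ, 0 < CA →
    (∀ R : ℝ, 0 < R → Lam (n := 2) F c χ t (indicator {q : M | ‖F q t‖ ≤ R} 1)
      ≤ ENNReal.ofReal (CA * R ^ 2)) →
    ∀ (Θ Y : M → ℝ) (p B C₀ C₁ C₂ : ℝ), Continuous Θ → Continuous Y → (∀ q, 0 ≤ Θ q) →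
    (∀ q, 0 < Y q) → 0 < p → p < 1 → (∀ q, Θ q ≤ B) →
    (∀ η : ℝ, 0 < η → ∃ R₁ : ℝ, ∀ q, R₁ ≤ ‖F q t‖ → Θ q ≤ η) →
    0 < C₀ → 0 ≤ C₁ → 0 ≤ C₂ →
    (∀ R δ : ℝ, 0 < R → 0 < δ → δ ≤ 1 →
      Lam (n := 2) F c χ t (fun q => ENNReal.ofReal
          (psR R F q t ^ 4 * (C₀ * Y q * (Θ q * (Θ q + δ) ^ (p - 1)))))
        ≤ Lam (n := 2) F c χ t (fun q => ENNReal.ofReal
          (indicator {q : M | ‖F q t‖ ≤ R}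
            (fun q => C₁ / R ^ 2 * (Θ q + δ) ^ p + C₂ * δ ^ p * (1 + R) ^ 2) q))) →
    ∀ q, Θ q = 0

/-- GB (hZM)(hNR)(hI3). Decay of `Θ`.

Proof. `|H| = κ|nrm(F - c)| ≤ κ‖F - c‖` (NR), `R ≤ AA ≤ |H|²`, so `0 ≤ Θ = D|H|² exp(-φ) ≤ 3|H|⁶ exp(-φ) ≤
3κ⁶ s⁶ exp(-κs²/2)` with `s = ‖F - c‖`; this function of `s ≥ 0` is bounded and tends to `0`, and
`s ≥ ‖F‖ - ‖c‖`. -/
def StGB : Prop := ∀ (N : ℕ) (M : Type) [TopologicalSpace M] [ChartedSpace (EE 2) M]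
    [IsManifold (𝓡 2) ∞ M] (F : M → ℝ → EE N), IsMCF (n := 2) F → ∀ t < 0,
    (∀ q : M, HH (n := 2) F q t ≠ 0) → ∀ (κ : ℝ) (c : EE N), 0 < κ → ShAt 2 F κ c t →
    (∀ q : M, AA (n := 2) F q t ≤ ‖HH (n := 2) F q t‖ ^ 2) →
    (∀ q, 0 ≤ ThF 2 κ c F q t) ∧ (∃ B : ℝ, ∀ q, ThF 2 κ c F q t ≤ B) ∧
    ∀ η : ℝ, 0 < η → ∃ R₁ : ℝ, ∀ q, R₁ ≤ ‖F q t‖ → ThF 2 κ c F q t ≤ η

/-! ### Part E: conclusion -/

/-- DS (hNR)(hSM)(hFR)(hI2)(hI3)(hI4). A pinched self-shrinker with `H = 0` at one point (fixed time)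
has `H = 0` everywhere; any `n`.

Proof. `M` is connected, the zero set of `H` is closed (I4) and we show it is open. In the chart at `q`
with `f = loc F q t`, `y₀ = chart q q`: for `y` near `y₀` (I3: `HH` at `symm y` is `mcv f y`, and `nrm` depends only
on the tangent space, NR) `mcv f y = -κ nrm f y (f y - c) = -κ(f y - c) + Σ_l Q_l(y) f_l(y)` with
`Q_l = κ Σ_k G_kl ⟨f - c, f_k⟩` smooth. So `∂_m mcv = -κ f_m + Σ_l (∂_m Q_l) f_l + Σ_l Q_l ∂_m f_l` and, as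
`mcv ⟂ f_l`, `⟨∂_m mcv, mcv⟩ = Σ_l Q_l ⟨dv2 f y m l, mcv⟩ = Σ_l Q_l ⟨sff f y m l, mcv⟩`. With
`|sff f y m l|² ≤ C nsq f y ≤ C |mcv|²` near `y₀` (FR: `nsq = Σ_ab |Σ P_ia P_jb A_ij|²`, `P` invertible with
locally bounded inverse; or: the positive definite form `Σ G G ⟨A,A⟩`; or compactness) this gives
`|∂_m |mcv|²| ≤ C' |mcv|²` near `y₀`. Along segments from `y₀`: Mathlib
`eq_zero_of_abs_deriv_le_mul_abs_self_of_eq_zero_right`. -/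
def StDS : Prop := ∀ (n N : ℕ), 1 ≤ n → ∀ (M : Type) [TopologicalSpace M] [T2Space M]
    [ConnectedSpace M] [ChartedSpace (EE n) M] [IsManifold (𝓡 n) ∞ M] (F : M → ℝ → EE N),
    IsMCF (n := n) F → ∀ t < 0, ∀ (κ : ℝ) (c : EE N), 0 < κ → ShAt n F κ c t →
    (∀ p : M, AA (n := n) F p t ≤ ‖HH (n := n) F p t‖ ^ 2) →
    ∀ p₀ : M, HH (n := n) F p₀ t = 0 → ∀ p : M, HH (n := n) F p t = 0

/-- DT (hNR)(hSM)(hFR)(hI2)(hI3). The same in time, at a fixed point; any `n`.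

Proof. `f (y,t) = loc F p t y` is smooth near `(y₀, t)`, `y₀ = chart p p` (I2), `HH F p t = mcv (f(·,t)) y₀`,
`∂_t f = mcv` (flow equation, near `(y₀,t)`). With `κ(t) = 1/(2(T-t))`:
`mcv = -κ(f - c) + Σ_l Q_l f_l`, `Q_l = κ Σ_k G_kl⟨f - c, f_k⟩` near `(y₀,t)`. So
`⟨∂_t mcv, mcv⟩ = -κ'⟨f - c, mcv⟩ - κ|mcv|² + Σ_l Q_l ⟨∂_t f_l, mcv⟩`, `⟨f - c, mcv⟩ = -|mcv|²/κ`,
`∂_t f_l = ∂_l mcv` (symmetry of second derivatives), `⟨∂_l mcv, mcv⟩ = Σ_m Q_m⟨sff l m, mcv⟩` (as in DS),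
`|sff l m|² ≤ C nsq ≤ C |mcv|²`. Hence `|d/dt |mcv|²| ≤ C(t) |mcv|²` with `C` locally bounded on `t < 0`, and
`g(t) = |HH F p t|²` vanishes identically if it vanishes at `t₀` (both directions: the set of zeros is
closed and open in `Iio 0`; `eq_zero_of_abs_deriv_le_mul_abs_self_of_eq_zero_right`, also for
`s ↦ g(-s)`). -/
def StDT : Prop := ∀ (n N : ℕ), 1 ≤ n → ∀ (M : Type) [TopologicalSpace M]
    [ChartedSpace (EE n) M] [IsManifold (𝓡 n) ∞ M] (F : M → ℝ → EE N),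
    IsMCF (n := n) F → ∀ (c : EE N) (T : ℝ), 0 ≤ T →
    (∀ (p : M) (t : ℝ), t < 0 → nrm (loc (n := n) F p t) (chartAt (EE n) p p) (F p t - c)
      = (2 * (t - T)) • HH (n := n) F p t) →
    (∀ (p : M) (t : ℝ), t < 0 → AA (n := n) F p t ≤ ‖HH (n := n) F p t‖ ^ 2) →
    ∀ (p : M) (t₀ : ℝ), t₀ < 0 → HH (n := n) F p t₀ = 0 →
    ∀ t : ℝ, t < 0 → HH (n := n) F p t = 0

/-- TOP (hDS)(hDT)(hPT)(hIN)(hLM)(hGB)(hZM)(hEQ)(hAG)(hV5)(hDFL)(hPL)(hFL)(hPO)(hI4). The theorem.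

Proof. Properness (DFL), `c, χ` from V5, `CA` from AG. If `H = 0` somewhere, `H ≡ 0` (DS, DT), so `AA ≡ 0` and
FL. Otherwise fix `t < 0`, `κ = 1/(2(T-t))`, `ShAt`. `X = ψ⁴Z` is `C¹`, tangential (ZM, EQ), zero where
`‖F‖ > R`. PT and IN with `g = ψ⁴·6εY·Θ(Θ+δ)^(p-1)`, `a = 64000/R² (Θ+δ)^p + 13 δ^p κ²‖F-c‖²` (continuous:
I4, ZM, EB or directly), and on `‖F‖ ≤ R`: `κ²‖F-c‖² ≤ κ²(1+‖c‖)²(1+R)²`. LM with `Y = |H|²`, `C₀ = 6ε`,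
`C₁ = 64000`, `C₂ = 13κ²(1+‖c‖)²`, bounds GB: `Θ = 0`. So `D = 0`, `R² ≤ D` gives `R = 0`, i.e.
`AA·|H|² = ZF` (ZM). PL with `J = Iio 0` gives the affine subspace. -/
def StTOP : Prop := ForcesSim 2 (5 / 6)

/-- VE (no hypotheses). The Veronese flow `Helper93.MCF.VF` is self-similarly shrinking.

Proof. `Pool/Agent/Helper93/MCF/PIup.lean`: `loc VF p t = fr r p`, `chartAt p p = 0`, `r = √(-(4t))`,
`HH_VF`; `c = 0`, `T = 0`. `VF p t = r • B p p` is orthogonal to `dv1 (fr r p) 0 k = 2r B p (io p e_k)`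
(`inner_B`, `p ⟂ io p`), so `nrm = VF p t`; `Hvec = (1/(2t)) VF p t` (`flow_VF` and the derivative of
`√(-4t)`, or `Hvec` from `Geo.lean`). As `Helper93.MCF.forcesPI_two_le`: `ForcesSim 2 c → c ≤ 5/6`. -/
def StVE : Prop := (∀ c : ℝ, ForcesSim 2 c → c ≤ 5 / 6)

end Helper23.SH
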