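import Mathlib
import Pool.Agent.Helper76.SH.Defs

/-! Module C `segments` of MP_506470_co. -/

namespace SetHom

namespace Seg

variable {Ω : Type*} [LinearOrder Ω]

/-- increasing sequences of length `n` -/
def Inc (n : ℕ) (s : ℕ → Ω) : Prop := ∀ i j, i < j → j < n → s i < s j

/-- alternating sequences of length `n`; the parity of `b` says whether the head is in `T` -/
def Alt (T : Set Ω) (n : ℕ) (s : ℕ → Ω) (b : ℕ) : Prop :=
  Inc n s ∧ ∀ i, i < n → (s i ∈ T ↔ (i + b) % 2 = 0)

theorem exists_inc {A : Set Ω} (hA : A.Infinite) (n : ℕ) :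
    ∃ y : ℕ → Ω, Inc n y ∧ ∀ i, i < n → y i ∈ A := by
  obtain ⟨t, ht, hc⟩ := hA.exists_subset_card_eq n
  obtain ⟨a, ha⟩ := hA.nonempty
  refine ⟨fun i => if h : i < n then t.orderEmbOfFin hc ⟨i, h⟩ else a, ?_, ?_⟩
  · intro i j hij hj
    have hi : i < n := hij.trans hj
    simp only [hi, hj, dif_pos]
    exact (t.orderEmbOfFin hc).strictMono hij
  · intro i hi
    simp only [hi, dif_pos]
    exact ht (t.orderEmbOfFin_mem hc _)

theorem Inc.mono {n m : ℕ} {s : ℕ → Ω} (h : Inc n s) (hm : m ≤ n) : Inc m s :=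
  fun i j hij hj => h i j hij (hj.trans_le hm)

theorem Inc.shift {n : ℕ} {s : ℕ → Ω} {k m : ℕ} (h : Inc n s) (hm : k + m ≤ n) :
    Inc m (fun i => s (k + i)) :=
  fun i j hij hj => h _ _ (by omega) (by omega)

theorem go_fun {Γ : Subgroup (Equiv.Perm Ω)} (hΓ : GO Γ) {n : ℕ} (hn : 2 ≤ n) {x x' : ℕ → Ω}
    (hx : Inc n x) (hx' : Inc n x') : ∃ g ∈ Γ, ∀ i, i < n → g (x i) = x' i := by
  have hp : ∀ {y : ℕ → Ω}, Inc n y → ((List.range n).map y).Pairwise (· < ·) := by
    intro y hy
    rw [List.pairwise_map]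
    refine List.Pairwise.imp_of_mem ?_ (List.pairwise_lt_range (n := n))
    intro a b _ hb hab
    exact hy a b hab (List.mem_range.1 hb)
  obtain ⟨g, hg, h⟩ := hΓ _ _ (hp hx) (hp hx') (by simp) (by simpa using hn)
  refine ⟨g, hg, fun i hi => ?_⟩
  rw [List.map_map] at h
  exact List.map_inj_left.1 h i (List.mem_range.2 hi)

/-- The properties of the family that are used. -/
structure Fam (F : Set (Set Ω)) (R : ℕ) : Prop where
  pl : ∀ n, 2 ≤ n → ∀ x x' : ℕ → Ω, Inc n x → Inc n x' → ∀ T ∈ F,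
    ∃ T' ∈ F, ∀ i, i < n → (x' i ∈ T' ↔ x i ∈ T)
  inf : ∀ T ∈ F, T.Infinite
  ne : ∀ T ∈ F, T ≠ Set.univ
  helly : ∀ A ∈ F, ∀ B ∈ F, ∀ C ∈ F, (A ∩ B).Nonempty → (A ∩ C).Nonempty →
      (B ∩ C).Nonempty → (A ∩ B ∩ C).Nonempty
  no3 : ∀ A ∈ F, ∀ B ∈ F, ∀ C ∈ F, ¬ (Disjoint A B ∧ Disjoint A C ∧ Disjoint B C)
  p6 : ∀ T ∈ F, ∀ z, z ∉ T → ∃ W ∈ F, z ∈ W ∧ Disjoint W T
  mx : ∀ T ∈ F, ∀ n (s : ℕ → Ω) b, Alt T n s b → n ≤ R

variable {F : Set (Set Ω)} {R : ℕ}

theorem Alt.prepend {T : Set Ω} {n b : ℕ} {s : ℕ → Ω} (h : Alt T n s b) (hn : 1 ≤ n) {y : Ω}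
    (hy : y < s 0) (hyT : ¬ (y ∈ T ↔ s 0 ∈ T)) :
    Alt T (n + 1) (fun i => if i = 0 then y else s (i - 1)) (b + 1) := by
  refine ⟨?_, ?_⟩
  · intro i j hij hj
    have hj0 : j ≠ 0 := by omega
    by_cases hi : i = 0
    · simp only [hi, hj0, if_true, if_false]
      rcases Nat.eq_or_lt_of_le (show 1 ≤ j by omega) with h1 | h1
      · rw [← h1]; exact hy
      · exact hy.trans (h.1 0 (j - 1) (by omega) (by omega))
    · simp only [hi, hj0, if_false]
      exact h.1 _ _ (by omega) (by omega)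
  · intro i hi
    by_cases h0 : i = 0
    · simp only [h0, if_true]
      have := h.2 0 (by omega)
      rw [Nat.zero_add] at this
      rw [this] at hyT
      rw [Nat.zero_add]
      by_cases hyy : y ∈ T
      · simp only [hyy, true_iff] at hyT ⊢
        omega
      · simp only [hyy, false_iff, not_not] at hyT ⊢
        omega
    · simp only [h0, if_false]
      rw [h.2 (i - 1) (by omega)]
      omega

theorem Alt.append {T : Set Ω} {n b : ℕ} {s : ℕ → Ω} (h : Alt T n s b) (hn : 1 ≤ n) {y : Ω}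
    (hy : s (n - 1) < y) (hyT : ¬ (y ∈ T ↔ s (n - 1) ∈ T)) :
    Alt T (n + 1) (fun i => if i < n then s i else y) b := by
  refine ⟨?_, ?_⟩
  · intro i j hij hj
    by_cases hjn : j < n
    · have hi : i < n := by omega
      simp only [hi, hjn, if_true]
      exact h.1 _ _ hij hjn
    · have hi : i < n := by omega
      simp only [hi, hjn, if_true, if_false]
      rcases Nat.eq_or_lt_of_le (show i ≤ n - 1 by omega) with h1 | h1
      · rw [h1]; exact hy
      · exact (h.1 i (n - 1) h1 (by omega)).trans hy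
  · intro i hi
    by_cases h0 : i < n
    · simp only [h0, if_true]
      exact h.2 i h0
    · simp only [h0, if_false]
      have h2 := h.2 (n - 1) (by omega)
      rw [h2] at hyT
      have hin : i = n := by omega
      subst hin
      by_cases hyy : y ∈ T
      · simp only [hyy, true_iff] at hyT ⊢
        omega
      · simp only [hyy, false_iff, not_not] at hyT ⊢
        omega

theorem Fam.rig_lo (hF : Fam F R) (hR : 1 ≤ R) {T : Set Ω} (hT : T ∈ F) {s : ℕ → Ω} {b : ℕ}
    (h : Alt T R s b) {y : Ω} (hy : y < s 0) : y ∈ T ↔ s 0 ∈ T := by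
  by_contra hc
  have := hF.mx T hT _ _ _ (h.prepend hR hy hc)
  omega

theorem Fam.rig_hi (hF : Fam F R) (hR : 1 ≤ R) {T : Set Ω} (hT : T ∈ F) {s : ℕ → Ω} {b : ℕ}
    (h : Alt T R s b) {y : Ω} (hy : s (R - 1) < y) : y ∈ T ↔ s (R - 1) ∈ T := by
  by_contra hc
  have := hF.mx T hT _ _ _ (h.append hR hy hc)
  omega

/-- moving an alternating sequence -/
theorem Fam.move (hF : Fam F R) {T : Set Ω} (hT : T ∈ F) {n : ℕ} (hn : 2 ≤ n) {s : ℕ → Ω} {b : ℕ}
    (h : Alt T n s b) {x : ℕ → Ω} (hx : Inc n x) : ∃ T' ∈ F, Alt T' n x b := by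
  obtain ⟨T', hT', h'⟩ := hF.pl n hn s x h.1 hx T hT
  exact ⟨T', hT', hx, fun i hi => (h' i hi).trans (h.2 i hi)⟩

/-- `R` odd -/
theorem Fam.caseA_aux (hF : Fam F R) (hR : 3 ≤ R) (hodd : R % 2 = 1) {T : Set Ω} (hT : T ∈ F)
    {s : ℕ → Ω} {b : ℕ} (h : Alt T R s b) {x : ℕ → Ω} (hx : Inc R x) :
    ∃ D ∈ F, ∀ y ∈ D, x 0 < y ∧ y < x (R - 1) := by
  obtain ⟨T', hT', h'⟩ := hF.move hT (by omega) h hx
  have e0 := h'.2 0 (by omega)
  have e1 := h'.2 (R - 1) (by omega)
  have e01 : x 0 ∈ T' ↔ x (R - 1) ∈ T' := by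
    rw [e0, e1]; omega
  have key : ∀ y, ¬ (x 0 < y ∧ y < x (R - 1)) → (y ∈ T' ↔ x 0 ∈ T') := by
    intro y hy
    rcases lt_trichotomy y (x 0) with h1 | h1 | h1
    · exact hF.rig_lo (by omega) hT' h' h1
    · rw [h1]
    · rcases lt_trichotomy y (x (R - 1)) with h2 | h2 | h2
      · exact absurd ⟨h1, h2⟩ hy
      · rw [h2, e01]
      · rw [hF.rig_hi (by omega) hT' h' h2, e01]
  by_cases h0 : x 0 ∈ T'
  · obtain ⟨z, hz⟩ := (Set.ne_univ_iff_exists_notMem T').1 (hF.ne T' hT')
    obtain ⟨W, hW, -, hd⟩ := hF.p6 T' hT' z hz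
    refine ⟨W, hW, fun y hy => ?_⟩
    by_contra hc
    exact Set.disjoint_left.1 hd hy ((key y hc).2 h0)
  · refine ⟨T', hT', fun y hy => ?_⟩
    by_contra hc
    exact h0 ((key y hc).1 hy)

theorem Fam.caseA [Infinite Ω] (hF : Fam F R) (hR : 3 ≤ R) (hodd : R % 2 = 1) {T : Set Ω}
    (hT : T ∈ F) {s : ℕ → Ω} {b : ℕ} (h : Alt T R s b) : False := by
  obtain ⟨u, hu, -⟩ := exists_inc (Set.infinite_univ (α := Ω)) (3 * R)
  obtain ⟨D0, hD0, h0⟩ := hF.caseA_aux hR hodd hT h (hu.shift (k := 0) (m := R) (by omega))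
  obtain ⟨D1, hD1, h1⟩ := hF.caseA_aux hR hodd hT h (hu.shift (k := R) (m := R) (by omega))
  obtain ⟨D2, hD2, h2⟩ := hF.caseA_aux hR hodd hT h (hu.shift (k := 2 * R) (m := R) (by omega))
  refine hF.no3 D0 hD0 D1 hD1 D2 hD2 ⟨?_, ?_, ?_⟩
  · rw [Set.disjoint_left]
    intro y hy hy'
    have a1 := (h0 y hy).2
    have a2 := (h1 y hy').1
    have a3 := hu (0 + (R - 1)) (R + 0) (by omega) (by omega)
    exact lt_irrefl _ ((a1.trans a3).trans a2)
  · rw [Set.disjoint_left]
    intro y hy hy'
    have a1 := (h0 y hy).2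
    have a2 := (h2 y hy').1
    have a3 := hu (0 + (R - 1)) (2 * R + 0) (by omega) (by omega)
    exact lt_irrefl _ ((a1.trans a3).trans a2)
  · rw [Set.disjoint_left]
    intro y hy hy'
    have a1 := (h1 y hy).2
    have a2 := (h2 y hy').1
    have a3 := hu (R + (R - 1)) (2 * R + 0) (by omega) (by omega)
    exact lt_irrefl _ ((a1.trans a3).trans a2)

/-- the sequence `y 0, …, y (k-1), a, c` -/
def two (k : ℕ) (y : ℕ → Ω) (a c : Ω) (i : ℕ) : Ω :=
  if i < k then y i else if i = k then a else c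

theorem two_inc {k : ℕ} {y : ℕ → Ω} {a c : Ω} (hy : Inc k y) (hk : 1 ≤ k) (h1 : y (k - 1) < a)
    (h2 : a < c) : Inc (k + 2) (two k y a c) := by
  intro i j hij hj
  have hya : ∀ i, i < k → y i < a := by
    intro i hi
    rcases Nat.eq_or_lt_of_le (show i ≤ k - 1 by omega) with h | h
    · rw [h]; exact h1
    · exact (hy i (k - 1) h (by omega)).trans h1
  unfold two
  by_cases hj1 : j < k
  · have hi1 : i < k := by omega
    simp only [hi1, hj1, if_true]
    exact hy i j hij hj1
  · by_cases hj2 : j = k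
    · have hi1 : i < k := by omega
      simp only [hi1, hj2, if_true, lt_irrefl, if_false]
      exact hya i hi1
    · by_cases hi1 : i < k
      · simp only [hi1, hj1, hj2, if_true, if_false]
        exact (hya i hi1).trans h2
      · have hi2 : i = k := by omega
        simp only [hi2, hj1, hj2, if_true, if_false, lt_irrefl]
        exact h2

/-- the pattern of case B1: `∉ ∈ ∉ ∈ … ∉`, then `∉ ∈` -/
def Pat (R : ℕ) (T : Set Ω) (x : ℕ → Ω) : Prop :=
  (∀ i, i < R - 1 → (x i ∈ T ↔ (i + 1) % 2 = 0)) ∧ x (R - 1) ∉ T ∧ x R ∈ T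

theorem Pat.alt {R : ℕ} (hR : 4 ≤ R) (hev : R % 2 = 0) {T : Set Ω} {x : ℕ → Ω}
    (hx : Inc (R + 1) x) (h : Pat R T x) :
    Alt T R (fun i => if i < R - 1 then x i else x R) 1 := by
  refine ⟨?_, ?_⟩
  · intro i j hij hj
    by_cases hj1 : j < R - 1
    · have hi1 : i < R - 1 := by omega
      simp only [hi1, hj1, if_true]
      exact hx i j hij (by omega)
    · have hi1 : i < R - 1 := by omega
      simp only [hi1, hj1, if_true, if_false]
      exact hx i R (by omega) (by omega)
  · intro i hi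
    by_cases hi1 : i < R - 1
    · simp only [hi1, if_true]
      exact h.1 i hi1
    · simp only [hi1, if_false]
      have : (i + 1) % 2 = 0 := by omega
      simp only [this, iff_true]
      exact h.2.2

theorem Fam.caseB1_aux (hF : Fam F R) (hR : 4 ≤ R) (hev : R % 2 = 0) {T : Set Ω} (hT : T ∈ F)
    {y : ℕ → Ω} {a t : Ω} (hy : Inc (R - 1) y) (h1 : y (R - 2) < a) (h2 : a < t)
    (h : Pat R T (two (R - 1) y a t)) {p : Ω} (hp : p ∈ T) (hpa : p < a) :
    y 0 < p ∧ p < y (R - 2) := by
  have hinc : Inc (R + 1) (two (R - 1) y a t) := by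
    have := two_inc hy (by omega) h1 h2
    rwa [show R - 1 + 2 = R + 1 by omega] at this
  have halt := h.alt hR hev hinc
  have v : ∀ i, i < R - 1 → two (R - 1) y a t i = y i := fun i hi => by
    simp only [two, hi, if_true]
  have va : two (R - 1) y a t (R - 1) = a := by
    simp only [two, lt_irrefl, if_false, if_true]
  have vt : two (R - 1) y a t R = t := by
    have h3 : ¬ R < R - 1 := by omega
    have h4 : ¬ R = R - 1 := by omega
    simp only [two, h3, h4, if_false]
  have m0 : y 0 ∉ T := by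
    have := h.1 0 (by omega)
    rw [v 0 (by omega)] at this
    intro hc
    have := this.1 hc
    omega
  have m2 : y (R - 2) ∉ T := by
    have := h.1 (R - 2) (by omega)
    rw [v _ (by omega)] at this
    intro hc
    have := this.1 hc
    omega
  have ma : a ∉ T := by
    have := h.2.1
    rwa [va] at this
  have mt : t ∈ T := by
    have := h.2.2
    rwa [vt] at this
  constructor
  · rcases lt_trichotomy p (y 0) with h3 | h3 | h3
    · exfalso
      have h4 := hF.rig_lo (by omega) hT halt (y := p) (by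
        have h5 : 0 < R - 1 := by omega
        simp only [h5, if_true]
        rw [v 0 h5]; exact h3)
      have h5 : 0 < R - 1 := by omega
      simp only [h5, if_true] at h4
      rw [v 0 h5] at h4
      exact m0 (h4.1 hp)
    · exact absurd (h3 ▸ hp) m0
    · exact h3
  · rcases lt_trichotomy p (y (R - 2)) with h3 | h3 | h3
    · exact h3
    · exact absurd (h3 ▸ hp) m2
    · exfalso
      -- the sequence y 0 .. y (R-2), p, a, t
      have a1 : Alt T (R - 1) y 1 := ⟨hy, fun i hi => by
        rw [← v i hi]; exact h.1 i hi⟩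
      have a2 := a1.append (by omega) (y := p) (by
        rw [show R - 1 - 1 = R - 2 by omega]; exact h3) (by
        rw [show R - 1 - 1 = R - 2 by omega]
        simp only [hp, m2]; decide)
      have a3 := a2.append (by omega) (y := a) (by
        simp only [show R - 1 + 1 - 1 = R - 1 by omega, lt_irrefl, if_false]; exact hpa) (by
        simp only [show R - 1 + 1 - 1 = R - 1 by omega, lt_irrefl, if_false, hp, ma]; decide)
      have a4 := a3.append (by omega) (y := t) (by
        have h5 : ¬ R - 1 + 1 + 1 - 1 < R - 1 + 1 := by omega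
        simp only [h5, if_false]; exact h2) (by
        have h5 : ¬ R - 1 + 1 + 1 - 1 < R - 1 + 1 := by omega
        simp only [h5, if_false, mt, ma]; decide)
      have := hF.mx T hT _ _ _ a4
      omega

theorem Fam.caseB1 [Infinite Ω] (hF : Fam F R) (hR : 4 ≤ R) (hev : R % 2 = 0) {T : Set Ω}
    (hT : T ∈ F) {x : ℕ → Ω} (hx : Inc (R + 1) x) (h : Pat R T x) : False := by
  obtain ⟨u, hu, -⟩ := exists_inc (Set.infinite_univ (α := Ω)) (R + 2)
  obtain ⟨T1, hT1, hp1⟩ := hF.pl (R + 1) (by omega) x u hx (hu.mono (by omega)) T hT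
  have hP1 : Pat R T1 u := ⟨fun i hi => (hp1 i (by omega)).trans (h.1 i hi),
    fun hc => h.2.1 ((hp1 (R - 1) (by omega)).1 hc), (hp1 R (by omega)).2 h.2.2⟩
  have halt := hP1.alt hR hev (hu.mono (by omega))
  set a := u R with ha
  set t := u (R + 1) with ht
  have hat : a < t := hu _ _ (by omega) (by omega)
  have haT : a ∈ T1 := hP1.2.2
  have hup : ∀ y, a ≤ y → y ∈ T1 := by
    intro y hy
    rcases hy.eq_or_lt with h1 | h1
    · exact h1 ▸ haT
    · have h2 := hF.rig_hi (by omega) hT1 halt (y := y) (by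
        simp only [lt_irrefl, if_false]; exact h1)
      simp only [lt_irrefl, if_false] at h2
      exact h2.2 haT
  have hu0 : u (R - 1) ∉ T1 := hP1.2.1
  obtain ⟨W, hW, -, hd⟩ := hF.p6 T1 hT1 _ hu0
  have hWa : ∀ y ∈ W, y < a := by
    intro y hy
    by_contra hc
    exact Set.disjoint_left.1 hd hy (hup y (not_lt.1 hc))
  obtain ⟨y, hy, hyW⟩ := exists_inc (hF.inf W hW) (2 * R - 2)
  -- first block
  have key : ∀ k, k + (R - 1) ≤ 2 * R - 2 → ∃ T' ∈ F, t ∈ T' ∧ y (k + 1) ∈ T' ∧
      ∀ p ∈ T', p < a → y k < p ∧ p < y (k + (R - 2)) := by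
    intro k hk
    have hyk : Inc (R - 1) (fun i => y (k + i)) := hy.shift hk
    have hlast : y (k + (R - 2)) < a := hWa _ (hyW _ (by omega))
    have hinc : Inc (R + 1) (two (R - 1) (fun i => y (k + i)) a t) := by
      have := two_inc hyk (by omega) (a := a) (c := t) (by
        rw [show R - 1 - 1 = R - 2 by omega]; exact hlast) hat
      rwa [show R - 1 + 2 = R + 1 by omega] at this
    obtain ⟨T', hT', hp'⟩ := hF.pl (R + 1) (by omega) x _ hx hinc T hT
    have hP' : Pat R T' (two (R - 1) (fun i => y (k + i)) a t) :=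
      ⟨fun i hi => (hp' i (by omega)).trans (h.1 i hi),
        fun hc => h.2.1 ((hp' (R - 1) (by omega)).1 hc), (hp' R (by omega)).2 h.2.2⟩
    refine ⟨T', hT', ?_, ?_, ?_⟩
    · have h1 := hP'.2.2
      have h3 : ¬ R < R - 1 := by omega
      have h4 : ¬ R = R - 1 := by omega
      simp only [two, h3, h4, if_false] at h1
      exact h1
    · have h1 := (hP'.1 1 (by omega)).2 (by norm_num)
      have h3 : 1 < R - 1 := by omega
      simp only [two, h3, if_true] at h1
      exact h1
    · intro p hp hpa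
      exact hF.caseB1_aux hR hev hT' hyk hlast hat hP' hp hpa
  obtain ⟨A, hA, hA1, hA2, hA3⟩ := key 0 (by omega)
  obtain ⟨B, hB, hB1, hB2, hB3⟩ := key (R - 1) (by omega)
  obtain ⟨z, ⟨hz1, hz2⟩, hz3⟩ := hF.helly A hA B hB W hW ⟨t, hA1, hB1⟩
    ⟨_, hA2, hyW _ (by omega)⟩ ⟨_, hB2, hyW _ (by omega)⟩
  have hza := hWa z hz3
  have e1 := (hA3 z hz1 hza).2
  have e2 := (hB3 z hz2 hza).1
  have e3 := hy (0 + (R - 2)) (R - 1) (by omega) (by omega)
  exact lt_irrefl _ ((e1.trans e3).trans e2)

theorem Fam.caseB [Infinite Ω] (hF : Fam F R) (hR : 4 ≤ R) (hev : R % 2 = 0) {T : Set Ω}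
    (hT : T ∈ F) {s : ℕ → Ω} (h : Alt T R s 1) : False := by
  obtain ⟨u, hu, -⟩ := exists_inc (Set.infinite_univ (α := Ω)) (2 * R)
  obtain ⟨T1, hT1, halt⟩ := hF.move hT (by omega) h (hu.mono (by omega))
  have m3 : u (R - 3) ∈ T1 := (halt.2 _ (by omega)).2 (by omega)
  have m2 : u (R - 2) ∉ T1 := fun hc => by
    have := (halt.2 _ (by omega)).1 hc
    omega
  have m1 : u (R - 1) ∈ T1 := (halt.2 _ (by omega)).2 (by omega)
  have hup : ∀ y, u (R - 1) ≤ y → y ∈ T1 := by
    intro y hy
    rcases hy.eq_or_lt with h1 | h1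
    · exact h1 ▸ m1
    · exact (hF.rig_hi (by omega) hT1 halt h1).2 m1
  -- case B1
  have hB1 : ∀ z, z ∉ T1 → u (R - 3) < z → z = u (R - 2) := by
    intro z hz hz3
    by_contra hne
    have hz1 : z < u (R - 1) := by
      by_contra hc
      exact hz (hup z (not_lt.1 hc))
    rcases lt_or_gt_of_ne hne with h1 | h1
    · -- z < u (R-2)
      refine hF.caseB1 hR hev hT1
        (x := fun i => if i < R - 2 then u i else if i = R - 2 then z else u (i - 1)) ?_ ?_
      · intro i j hij hj
        by_cases hj1 : j < R - 2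
        · have hi1 : i < R - 2 := by omega
          simp only [hi1, hj1, if_true]
          exact hu _ _ hij (by omega)
        · by_cases hj2 : j = R - 2
          · have hi1 : i < R - 2 := by omega
            simp only [hi1, hj2, if_true, lt_irrefl, if_false]
            rcases Nat.eq_or_lt_of_le (show i ≤ R - 3 by omega) with h2 | h2
            · rw [h2]; exact hz3
            · exact (hu i (R - 3) h2 (by omega)).trans hz3
          · by_cases hi1 : i < R - 2
            · simp only [hi1, hj1, hj2, if_true, if_false]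
              exact hu _ _ (by omega) (by omega)
            · by_cases hi2 : i = R - 2
              · simp only [hi2, hj1, hj2, if_true, if_false, lt_irrefl]
                rcases Nat.eq_or_lt_of_le (show R - 2 ≤ j - 1 by omega) with h2 | h2
                · rw [← h2]; exact h1
                · exact h1.trans (hu _ _ h2 (by omega))
              · simp only [hi1, hi2, hj1, hj2, if_false]
                exact hu _ _ (by omega) (by omega)
      · refine ⟨?_, ?_, ?_⟩
        · intro i hi
          by_cases hi1 : i < R - 2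
          · simp only [hi1, if_true]
            exact halt.2 i (by omega)
          · have hi2 : i = R - 2 := by omega
            simp only [hi2, lt_irrefl, if_false, if_true]
            have : ¬ (R - 2 + 1) % 2 = 0 := by omega
            simp only [this, iff_false]
            exact hz
        · have h3 : ¬ R - 1 < R - 2 := by omega
          have h4 : ¬ R - 1 = R - 2 := by omega
          simp only [h3, h4, if_false]
          rw [show R - 1 - 1 = R - 2 by omega]
          exact m2
        · have h3 : ¬ R < R - 2 := by omega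
          have h4 : ¬ R = R - 2 := by omega
          simp only [h3, h4, if_false]
          exact m1
    · -- u (R-2) < z
      refine hF.caseB1 hR hev hT1 (x := two (R - 1) u z (u (R - 1))) ?_ ?_
      · have := two_inc (k := R - 1) (y := u) (a := z) (c := u (R - 1)) (hu.mono (by omega))
          (by omega) (by rw [show R - 1 - 1 = R - 2 by omega]; exact h1) hz1
        rwa [show R - 1 + 2 = R + 1 by omega] at this
      · refine ⟨?_, ?_, ?_⟩
        · intro i hi
          simp only [two, hi, if_true]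
          exact halt.2 i (by omega)
        · simp only [two, lt_irrefl, if_false, if_true]
          exact hz
        · have h3 : ¬ R < R - 1 := by omega
          have h4 : ¬ R = R - 1 := by omega
          simp only [two, h3, h4, if_false]
          exact m1
  -- case B2
  obtain ⟨W, hW, hzW, hd⟩ := hF.p6 T1 hT1 _ m2
  have hWT : ∀ y ∈ W, y ∉ T1 := fun y hy => Set.disjoint_left.1 hd hy
  have h32 : u (R - 3) < u (R - 2) := hu _ _ (by omega) (by omega)
  have hWle : ∀ y ∈ W, y ≤ u (R - 2) := by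
    intro y hy
    by_contra hc
    have h1 := hB1 y (hWT y hy) (h32.trans (not_le.1 hc))
    exact hc h1.le
  obtain ⟨w, hw, hwW⟩ := exists_inc (hF.inf W hW) 3
  have hw12 : w 1 < u (R - 2) := (hw 1 2 (by omega) (by omega)).trans_le (hWle _ (hwW 2 (by omega)))
  have hw01 : w 0 < w 1 := hw 0 1 (by omega) (by omega)
  -- T'
  obtain ⟨A, hA, hAlt⟩ := hF.move hT1 (by omega) halt
    (x := fun i => if i < 2 then u (R - 3 + i) else u (R - 2 + i)) (by
      intro i j hij hj
      by_cases hj1 : j < 2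
      · have hi1 : i < 2 := by omega
        simp only [hi1, hj1, if_true]
        exact hu _ _ (by omega) (by omega)
      · by_cases hi1 : i < 2
        · simp only [hi1, hj1, if_true, if_false]
          exact hu _ _ (by omega) (by omega)
        · simp only [hi1, hj1, if_false]
          exact hu _ _ (by omega) (by omega))
  obtain ⟨B, hB, hBlt⟩ := hF.move hT1 (by omega) halt
    (x := fun i => if i < 2 then w i else if i = 2 then u (R - 2) else u (R - 2 + i)) (by
      intro i j hij hj
      by_cases hj1 : j < 2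
      · have hi1 : i < 2 := by omega
        simp only [hi1, hj1, if_true]
        exact hw _ _ hij (by omega)
      · have hwi : ∀ i, i < 2 → w i < u (R - 2) := by
          intro i hi
          rcases (show i = 0 ∨ i = 1 by omega) with h | h
          · rw [h]; exact hw01.trans hw12
          · rw [h]; exact hw12
        by_cases hj2 : j = 2
        · have hi1 : i < 2 := by omega
          have h22 : ¬ (2 : ℕ) < 2 := lt_irrefl _
          simp only [hi1, hj2, h22, if_true, if_false]
          exact hwi i hi1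
        · by_cases hi1 : i < 2
          · simp only [hi1, hj1, hj2, if_true, if_false]
            exact (hwi i hi1).trans (hu _ _ (by omega) (by omega))
          · by_cases hi2 : i = 2
            · have h22 : ¬ (2 : ℕ) < 2 := lt_irrefl _
              simp only [hi2, hj1, hj2, h22, if_true, if_false]
              exact hu _ _ (by omega) (by omega)
            · simp only [hi1, hi2, hj1, hj2, if_false]
              exact hu _ _ (by omega) (by omega))
  have a0 : u (R - 3) ∉ A := by
    have := (hAlt.2 0 (by omega))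
    simp only [show (0 : ℕ) < 2 by omega, if_true, Nat.add_zero] at this
    intro hc
    have := this.1 hc
    omega
  have a1 : u (R - 2) ∈ A := by
    have := (hAlt.2 1 (by omega)).2 (by norm_num)
    simp only [show (1 : ℕ) < 2 by omega, if_true, show R - 3 + 1 = R - 2 by omega] at this
    exact this
  have a2 : u (2 * R - 3) ∈ A := by
    have := (hAlt.2 (R - 1) (by omega)).2 (by omega)
    have h3 : ¬ R - 1 < 2 := by omega
    simp only [h3, if_false, show R - 2 + (R - 1) = 2 * R - 3 by omega] at this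
    exact this
  have b1 : w 1 ∈ B := by
    have := (hBlt.2 1 (by omega)).2 (by norm_num)
    simp only [show (1 : ℕ) < 2 by omega, if_true] at this
    exact this
  have b2 : u (R - 2) ∉ B := by
    have h22 : ¬ (2 : ℕ) < 2 := lt_irrefl _
    have := (hBlt.2 2 (by omega))
    simp only [h22, if_true, if_false] at this
    intro hc
    have := this.1 hc
    omega
  have b3 : u (2 * R - 3) ∈ B := by
    have := (hBlt.2 (R - 1) (by omega)).2 (by omega)
    have h3 : ¬ R - 1 < 2 := by omega
    have h4 : ¬ R - 1 = 2 := by omega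
    simp only [h3, h4, if_false, show R - 2 + (R - 1) = 2 * R - 3 by omega] at this
    exact this
  have a3 : ∀ p ∈ A, p ∈ W → p = u (R - 2) := by
    intro p hp hpW
    refine hB1 p (hWT p hpW) ?_
    rcases lt_trichotomy p (u (R - 3)) with h3 | h3 | h3
    · exfalso
      have := hF.rig_lo (by omega) hA hAlt (y := p) (by
        simp only [show (0 : ℕ) < 2 by omega, if_true, Nat.add_zero]; exact h3)
      simp only [show (0 : ℕ) < 2 by omega, if_true, Nat.add_zero] at this
      exact a0 (this.1 hp)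
    · exact absurd (h3 ▸ hp) a0
    · exact h3
  obtain ⟨z, ⟨hz1, hz2⟩, hz3⟩ := hF.helly A hA B hB W hW ⟨_, a2, b3⟩ ⟨_, a1, hzW⟩
    ⟨_, b1, hwW 1 (by omega)⟩
  exact b2 (a3 z hz1 hz3 ▸ hz2)

/-- reversing sequences -/
theorem Inc.rev {n : ℕ} {s : ℕ → Ω} (h : Inc n s) :
    @Inc Ωᵒᵈ _ n (fun i => OrderDual.toDual (s (n - 1 - i))) := by
  intro i j hij hj
  exact h _ _ (by omega) (by omega)

theorem Inc.rev' {n : ℕ} {s : ℕ → Ωᵒᵈ} (h : Inc n s) :
    @Inc Ω _ n (fun i => OrderDual.ofDual (s (n - 1 - i))) := by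
  intro i j hij hj
  exact h _ _ (by omega) (by omega)

theorem Fam.dual (hF : Fam F R) : @Fam Ωᵒᵈ _ F R where
  pl := by
    intro n hn x x' hx hx' T hT
    obtain ⟨T', hT', h⟩ := hF.pl n hn _ _ hx.rev' hx'.rev' T hT
    refine ⟨T', hT', fun i hi => ?_⟩
    have := h (n - 1 - i) (by omega)
    simp only [show n - 1 - (n - 1 - i) = i by omega] at this
    exact this
  inf := hF.inf
  ne := hF.ne
  helly := hF.helly
  no3 := hF.no3
  p6 := hF.p6
  mx := by
    intro T hT n s b h
    refine hF.mx T hT n _ (n + 1 + b) ⟨h.1.rev', fun i hi => ?_⟩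
    refine (h.2 (n - 1 - i) (by omega)).trans ?_
    omega

theorem Fam.false [Infinite Ω] (hF : Fam F R) (hR : 3 ≤ R) {T : Set Ω} (hT : T ∈ F)
    {s : ℕ → Ω} {b : ℕ} (h : Alt T R s b) : False := by
  rcases Nat.mod_two_eq_zero_or_one R with hev | hodd
  · rcases Nat.mod_two_eq_zero_or_one b with hb | hb
    · have : Infinite Ωᵒᵈ := inferInstanceAs (Infinite Ω)
      refine hF.dual.caseB (by omega) hev hT (s := fun i => OrderDual.toDual (s (R - 1 - i))) ?_
      refine ⟨h.1.rev, fun i hi => ?_⟩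
      refine (h.2 (R - 1 - i) (by omega)).trans ?_
      omega
    · refine hF.caseB (by omega) hev hT (s := s) ⟨h.1, fun i hi => ?_⟩
      refine (h.2 i hi).trans ?_
      omega
  · exact hF.caseA hR hodd hT h

end Seg

open Seg in
theorem segments {Ω : Type*} [LinearOrder Ω] [Infinite Ω] (Γ : Subgroup (Equiv.Perm Ω))
    (hΓ : GO Γ) (F : Set (Set Ω)) (inv : ∀ g ∈ Γ, ∀ T ∈ F, g '' T ∈ F)
    (inf : ∀ T ∈ F, T.Infinite) (ne : ∀ T ∈ F, T ≠ Set.univ)
    (helly : ∀ A ∈ F, ∀ B ∈ F, ∀ C ∈ F, (A ∩ B).Nonempty → (A ∩ C).Nonempty →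
      (B ∩ C).Nonempty → (A ∩ B ∩ C).Nonempty)
    (no3 : ∀ A ∈ F, ∀ B ∈ F, ∀ C ∈ F, ¬ (Disjoint A B ∧ Disjoint A C ∧ Disjoint B C))
    (p6 : ∀ T ∈ F, ∀ z, z ∉ T → ∃ W ∈ F, z ∈ W ∧ Disjoint W T)
    (ns : ∃ S : Finset Ω, ∃ B ⊆ S, ∀ T ∈ F, T ∩ (S : Set Ω) ≠ (B : Set Ω)) :
    ∀ T ∈ F, IsLowerSet T ∨ IsUpperSet T := by
  classical
  have pl : ∀ n, 2 ≤ n → ∀ x x' : ℕ → Ω, Inc n x → Inc n x' → ∀ T ∈ F,
      ∃ T' ∈ F, ∀ i, i < n → (x' i ∈ T' ↔ x i ∈ T) := by
    intro n hn x x' hx hx' T hT
    obtain ⟨g, hg, h⟩ := go_fun hΓ hn hx hx'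
    refine ⟨g '' T, inv g hg T hT, fun i hi => ?_⟩
    rw [← h i hi]
    exact g.injective.mem_set_image
  -- boundedness
  obtain ⟨S, B, hBS, hns⟩ := ns
  obtain ⟨S', hSS', hcard⟩ := Infinite.exists_superset_card_eq S (S.card + 2) (by omega)
  have hns' : ∀ T ∈ F, T ∩ (S' : Set Ω) ≠ (B : Set Ω) := by
    intro T hT h
    refine hns T hT ?_
    ext z
    constructor
    · rintro ⟨h1, h2⟩
      have : z ∈ T ∩ (S' : Set Ω) := ⟨h1, hSS' h2⟩
      rwa [h] at this
    · intro hz
      have : z ∈ T ∩ (S' : Set Ω) := by rw [h]; exact hz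
      exact ⟨this.1, hBS hz⟩
  set k := S.card + 2 with hk
  have bdd : ∀ T ∈ F, ∀ n (s : ℕ → Ω) b, Alt T n s b → n ≤ 2 * k := by
    intro T hT n s b h
    by_contra hn
    push Not at hn
    -- the points of S'
    let e := S'.orderEmbOfFin hcard
    obtain ⟨a, -⟩ : ∃ a : Ω, True := ⟨s 0, trivial⟩
    let x' : ℕ → Ω := fun i => if hi : i < k then e ⟨i, hi⟩ else a
    have hx' : Inc k x' := by
      intro i j hij hj
      have hi : i < k := hij.trans hj
      simp only [x', hi, hj, dif_pos]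
      exact e.strictMono hij
    let x : ℕ → Ω := fun j => if (2 * j + b) % 2 = 0 ↔ x' j ∈ B then s (2 * j) else s (2 * j + 1)
    have hx : Inc k x := by
      intro i j hij hj
      have h1 : x i ≤ s (2 * i + 1) := by
        simp only [x]
        split_ifs
        · exact (h.1 _ _ (by omega) (by omega)).le
        · exact le_rfl
      have h2 : s (2 * j) ≤ x j := by
        simp only [x]
        split_ifs
        · exact le_rfl
        · exact (h.1 _ _ (by omega) (by omega)).le
      exact (h1.trans_lt (h.1 _ _ (by omega) (by omega))).trans_le h2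
    have hxT : ∀ j, j < k → (x j ∈ T ↔ x' j ∈ B) := by
      intro j hj
      simp only [x]
      split_ifs with hc
      · rw [h.2 _ (by omega)]; exact hc
      · rw [h.2 _ (by omega)]
        by_cases hb : x' j ∈ B
        · simp only [hb, iff_true] at hc ⊢
          omega
        · simp only [hb, iff_false] at hc ⊢
          omega
    obtain ⟨T', hT', h'⟩ := pl k (by omega) x x' hx hx' T hT
    refine hns' T' hT' ?_
    ext z
    constructor
    · rintro ⟨h1, h2⟩
      have : z ∈ Set.range e := by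
        rw [Finset.range_orderEmbOfFin]; exact h2
      obtain ⟨⟨i, hi⟩, rfl⟩ := this
      have h3 : x' i = e ⟨i, hi⟩ := by simp only [x', hi, dif_pos]
      have h4 := (h' i hi).trans (hxT i hi)
      rw [h3] at h4
      exact h4.1 h1
    · intro hz
      have hz' : z ∈ (S' : Set Ω) := hSS' (hBS hz)
      have : z ∈ Set.range e := by
        rw [Finset.range_orderEmbOfFin]; exact hz'
      obtain ⟨⟨i, hi⟩, rfl⟩ := this
      have h3 : x' i = e ⟨i, hi⟩ := by simp only [x', hi, dif_pos]
      have h4 := (h' i hi).trans (hxT i hi)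
      rw [h3] at h4
      exact ⟨h4.2 hz, hz'⟩
  intro T0 hT0
  by_contra hcon
  push Not at hcon
  obtain ⟨hl, hu⟩ := hcon
  -- an alternation of length 3
  have h3 : ∃ s b, Alt T0 3 s b := by
    simp only [IsLowerSet, not_forall] at hl
    simp only [IsUpperSet, not_forall] at hu
    obtain ⟨p, q, hqp, hp, hq⟩ := hl
    obtain ⟨c, d, hcd, hc, hd⟩ := hu
    have hqp' : q < p := lt_of_le_of_ne hqp (fun h => hq (h ▸ hp))
    have hcd' : c < d := lt_of_le_of_ne hcd (fun h => hd (h ▸ hc))
    have mk : ∀ x y z : Ω, x < y → y < z → ∀ b, (x ∈ T0 ↔ (0 + b) % 2 = 0) →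
        (y ∈ T0 ↔ (1 + b) % 2 = 0) → (z ∈ T0 ↔ (2 + b) % 2 = 0) → ∃ s b, Alt T0 3 s b := by
      intro x y z hxy hyz b h0 h1 h2
      refine ⟨fun i => if i = 0 then x else if i = 1 then y else z, b, ?_, ?_⟩
      · intro i j hij hj
        have : (i = 0 ∧ j = 1) ∨ (i = 0 ∧ j = 2) ∨ (i = 1 ∧ j = 2) := by omega
        rcases this with ⟨rfl, rfl⟩ | ⟨rfl, rfl⟩ | ⟨rfl, rfl⟩
        · simpa using hxy
        · simpa using hxy.trans hyz
        · simpa using hyz
      · intro i hi
        have : i = 0 ∨ i = 1 ∨ i = 2 := by omega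
        rcases this with rfl | rfl | rfl
        · simpa using h0
        · simpa using h1
        · simpa using h2
    rcases lt_trichotomy d p with h | h | h
    · exact mk c d p hcd' h 0 (by simp [hc]) (by simp [hd]) (by simp [hp])
    · exact absurd (h ▸ hp) hd
    · exact mk q p d hqp' h 1 (by simp [hq]) (by simp [hp]) (by simp [hd])
  -- the maximum
  let P : ℕ → Prop := fun n => ∃ T ∈ F, ∃ s b, Alt T n s b
  have hP3 : P 3 := ⟨T0, hT0, h3⟩
  have hPb : ∀ n, P n → n ≤ 2 * k := by
    rintro n ⟨T, hT, s, b, h⟩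
    exact bdd T hT n s b h
  have hPR : P (Nat.findGreatest P (2 * k)) := Nat.findGreatest_spec (hPb 3 hP3) hP3
  have hmax : ∀ n, P n → n ≤ Nat.findGreatest P (2 * k) := fun n hn =>
    Nat.le_findGreatest (hPb n hn) hn
  obtain ⟨T, hT, s, b, h⟩ := hPR
  have hFam : Fam F (Nat.findGreatest P (2 * k)) :=
    ⟨pl, inf, ne, helly, no3, p6, fun T hT n s b h => hmax n ⟨T, hT, s, b, h⟩⟩
  exact hFam.false (hmax 3 hP3) hT h

end SetHom
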